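import Mathlib
import Pool.Agent.Lib.MP_099f24_an.B6.Key
import Pool.Agent.Lib.MP_099f24_an.B6.Near
import Pool.Agent.Lib.MP_099f24_an.B6.Cpt
import Pool.Agent.Lib.MP_099f24_an.B6.Energy
import Pool.Agent.Lib.MP_099f24_an.B6.Cls
import Pool.Agent.Lib.MP_099f24_an.RG.Defs

/-!
# Global elements: the three alternatives, length growth (module DG4, abstract part)
-/

set_option autoImplicit false

namespace Pool.Agent.MP099f24

open MeasureTheory Filter Topology Set Metric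
open scoped ENNReal ContDiff ComplexConjugate

section alt

variable {G : Set B6El} {D : B6El → ℝ → ℝ} {e1 : B6El → ℝ}

/-- the ratio tends to its supremum, computed along a blow-down sequence -/
theorem dg_tendsto (hG : B6Class G D e1) {Q : B6El} (hQ : Q ∈ G) (h0 : (0 : ℂ) ∈ Q.K)
    {Q' : B6El} (hQ' : Q' ∈ G) (h0' : (0 : ℂ) ∈ Q'.K) {R : ℕ → ℝ} (hR0 : ∀ k, 0 < R k)
    (hc : B6Conv (fun k => Q.resc 0 (R k)) Q') {φ : ℝ}
    (h1 : ∀ r : ℝ, 0 < r → D Q' r = φ * r) (h2 : ∀ s : ℝ, 0 < s → D Q s / s ≤ φ) :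
    Tendsto (fun r => D Q r / r) atTop (𝓝 φ) := by
  rw [tendsto_order]
  constructor
  · intro a ha
    have h3 := hG.Dcont _ _ (fun k => hG.resc0 Q hQ h0 (R k) (hR0 k))
      (fun k => by simpa [B6El.resc] using h0) hQ' h0' hc 1 one_pos
    rw [h1 1 one_pos, mul_one] at h3
    obtain ⟨k, hk⟩ := (h3.eventually_const_lt ha).exists
    rw [hG.Dresc Q hQ h0 _ _ (hR0 k) one_pos, mul_one] at hk
    filter_upwards [eventually_ge_atTop (R k)] with r hr
    exact hk.trans_le (hG.Dmono Q hQ h0 _ _ (hR0 k) hr)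
  · intro b hb
    filter_upwards [eventually_gt_atTop 0] with r hr
    exact (h2 r hr).trans_lt hb

/-- **The three alternatives for a global element through the origin.** -/
theorem dg_alt (hG : B6Class G D e1) {Q : B6El} (hQ : Q ∈ G) (h0 : (0 : ℂ) ∈ Q.K) :
    (B6Zero Q ∧ (B6Line Q.K ∨ ∃ c, B6Tri Q.K c)) ∨
    (B6Tip Q ∧ ∀ r : ℝ, 0 < r → D Q r = r) ∨
    ((∃ Q' ∈ G, (0 : ℂ) ∈ Q'.K ∧ B6Zero Q' ∧ (B6Line Q'.K ∨ ∃ c, B6Tri Q'.K c) ∧
      ∃ R : ℕ → ℝ, (∀ k, 0 < R k) ∧ Tendsto R atTop (𝓝 0) ∧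
        B6Conv (fun k => Q.resc 0 (R k)) Q') ∧
     (∀ r : ℝ, 0 < r → D Q r ≤ r) ∧ Tendsto (fun r => D Q r / r) atTop (𝓝 1)) := by
  obtain ⟨Qi, hQi, h0i, Ri, hRi0, -, hci, φi, hφi1, hφi2⟩ := b6_blowdown hG hQ h0
  obtain ⟨Qz, hQz, h0z, Rz, hRz0, hRz, hcz, φz, hφz1, hφz2⟩ := b6_blowup hG hQ h0
  rcases hG.cls Qi hQi h0i φi hφi1 with ⟨h1, -, -⟩ | ⟨h1, -⟩
  · left
    have h2 : ∀ r : ℝ, 0 < r → D Q r = 0 * r := by
      intro r hr
      have h3 := hφi2 r hr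
      rw [h1, div_le_iff₀ hr] at h3
      exact le_antisymm h3 (by simpa using hG.Dnn Q hQ h0 r hr)
    rcases hG.cls Q hQ h0 0 h2 with ⟨-, h5, h6⟩ | ⟨h5, -⟩
    · exact ⟨h5, h6⟩
    · norm_num at h5
  · right
    rcases hG.cls Qz hQz h0z φz hφz1 with ⟨h3, h4, h5⟩ | ⟨h3, -⟩
    · right
      refine ⟨⟨Qz, hQz, h0z, h4, h5, Rz, hRz0, hRz, hcz⟩, ?_, ?_⟩
      · intro r hr
        have h6 := hφi2 r hr
        rwa [h1, div_le_iff₀ hr, one_mul] at h6
      · rw [← h1]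
        exact dg_tendsto hG hQ h0 hQi h0i hRi0 hci hφi1 hφi2
    · left
      have h6 : ∀ r : ℝ, 0 < r → D Q r = 1 * r := by
        intro r hr
        have h7 := hφi2 r hr
        have h8 := hφz2 r hr
        rw [h1, div_le_iff₀ hr] at h7
        rw [h3, le_div_iff₀ hr] at h8
        exact le_antisymm h7 h8
      rcases hG.cls Q hQ h0 1 h6 with ⟨h7, -, -⟩ | ⟨-, h7⟩
      · norm_num at h7
      · exact ⟨h7, fun r hr => by rw [h6 r hr, one_mul]⟩

end alt

/-! ### lines and propellers are not close to rays -/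

theorem dg_two {K : Set ℂ} (h : B6Line K ∨ ∃ c, B6Tri K c) (h0 : (0 : ℂ) ∈ K) :
    ∃ t : ℝ, 0 < t ∧ t ≤ 1 / 2 ∧ ∃ z₁ ∈ K, ∃ z₂ ∈ K, ‖z₁‖ = t ∧ ‖z₂‖ = t ∧ t ≤ ‖z₁ - z₂‖ := by
  rcases h with ⟨e, he, hK⟩ | ⟨c, e, he, hK⟩
  · refine ⟨1 / 2, by norm_num, le_rfl, (1 / 2 : ℝ) * e, ?_, (-(1 / 2) : ℝ) * e, ?_, ?_, ?_, ?_⟩
    · rw [hK]; exact ⟨_, rfl⟩
    · rw [hK]; exact ⟨_, rfl⟩
    · rw [norm_mul, he, Complex.norm_real]; norm_num
    · rw [norm_mul, he, Complex.norm_real]; norm_num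
    · have h1 : ((1 / 2 : ℝ) : ℂ) * e - ((-(1 / 2) : ℝ) : ℂ) * e = e := by
        push_cast; ring
      rw [h1, he]; norm_num
  · by_cases hc : c = 0
    · refine ⟨1 / 2, by norm_num, le_rfl, (1 / 2 : ℝ) * (om3 ^ 0 * e), ?_,
        (1 / 2 : ℝ) * (om3 ^ 1 * e), ?_, ?_, ?_, ?_⟩
      · rw [hK, hc]; exact ⟨0, 1 / 2, by norm_num, by simp⟩
      · rw [hK, hc]; exact ⟨1, 1 / 2, by norm_num, by simp⟩
      · rw [norm_mul, norm_mul, b6_om3_pow_norm, he, Complex.norm_real]; norm_num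
      · rw [norm_mul, norm_mul, b6_om3_pow_norm, he, Complex.norm_real]; norm_num
      · have h1 := b6_arms he (i := (0 : Fin 3)) (j := 1) (by decide) (s := 1 / 2) (t := 1 / 2)
          (by norm_num) (by norm_num)
        simp only [Fin.val_zero, Fin.val_one] at h1
        rw [norm_sub_rev]
        linarith
    · have h0' := h0
      rw [hK] at h0'
      obtain ⟨i, s, hs, hse⟩ := h0'
      have hc1 : c = -((s : ℂ) * (om3 ^ (i : ℕ) * e)) := by linear_combination -hse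
      have hcn : ‖c‖ = s := by
        rw [hc1, norm_neg, norm_mul, norm_mul, b6_om3_pow_norm, he, Complex.norm_real,
          Real.norm_of_nonneg hs]
        ring
      have hsp : 0 < s := by rw [← hcn]; exact norm_pos_iff.2 hc
      have ht : 0 < min s (1 / 2) := lt_min hsp (by norm_num)
      have hf : ‖om3 ^ (i : ℕ) * e‖ = 1 := by rw [norm_mul, b6_om3_pow_norm, he, one_mul]
      refine ⟨min s (1 / 2), ht, min_le_right _ _,
        ((min s (1 / 2) : ℝ) : ℂ) * (om3 ^ (i : ℕ) * e), ?_,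
        ((-(min s (1 / 2)) : ℝ) : ℂ) * (om3 ^ (i : ℕ) * e), ?_, ?_, ?_, ?_⟩
      · rw [hK]
        refine ⟨i, s + min s (1 / 2), by positivity, ?_⟩
        rw [hc1]; push_cast; ring
      · rw [hK]
        refine ⟨i, s - min s (1 / 2), by linarith [min_le_left s (1 / 2)], ?_⟩
        rw [hc1]; push_cast; ring
      · rw [norm_mul, hf, Complex.norm_real, Real.norm_of_nonneg ht.le, mul_one]
      · rw [norm_mul, hf, Complex.norm_real, norm_neg, Real.norm_of_nonneg ht.le, mul_one]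
      · have h1 : ((min s (1 / 2) : ℝ) : ℂ) * (om3 ^ (i : ℕ) * e) -
            ((-(min s (1 / 2)) : ℝ) : ℂ) * (om3 ^ (i : ℕ) * e)
            = ((2 * min s (1 / 2) : ℝ) : ℂ) * (om3 ^ (i : ℕ) * e) := by
          push_cast; ring
        rw [h1, norm_mul, hf, Complex.norm_real, Real.norm_of_nonneg (by positivity), mul_one]
        linarith

/-- If some blow-up at `x` is a line or a propeller then `P.K` is not close to rays at all small
scales. -/
theorem dg_not_ray {P : B6El} {x : ℂ} {Q' : B6El} (hQ' : B6Line Q'.K ∨ ∃ c, B6Tri Q'.K c)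
    (h0 : (0 : ℂ) ∈ Q'.K) {R : ℕ → ℝ} (hR0 : ∀ k, 0 < R k) (hR : Tendsto R atTop (𝓝 0))
    (hc : B6Conv (fun k => P.resc x (R k)) Q')
    (H : ∀ δ : ℝ, 0 < δ → ∃ r₁ : ℝ, 0 < r₁ ∧ ∀ r : ℝ, 0 < r → r < r₁ → ∃ e, RayDir P.K x r δ e) :
    False := by
  obtain ⟨t, ht, ht2, z₁, hz₁, z₂, hz₂, hn₁, hn₂, hd⟩ := dg_two hQ' h0
  obtain ⟨r₁, hr₁, H1⟩ := H (t / 10) (by positivity)
  obtain ⟨k, hk1, hk2⟩ := ((hR.eventually_lt_const hr₁).and
    (hc.u2 1 (t / 10) (by positivity))).exists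
  have hRk := hR0 k
  obtain ⟨e, he, hray, -⟩ := H1 (R k) hRk hk1
  have key : ∀ z ∈ Q'.K, ‖z‖ = t → ‖z - t * e‖ ≤ 4 * t / 10 := by
    intro z hz hzt
    obtain ⟨y, hy, hyz⟩ := hk2 z hz (by linarith)
    have hyn : ‖y‖ ≤ 1 := by
      have := norm_le_norm_add_norm_sub' y z
      linarith
    obtain ⟨s, hs, hse⟩ := hray (x + R k * y) hy (by
      rw [add_sub_cancel_left, norm_mul, Complex.norm_real, Real.norm_of_nonneg hRk.le]
      nlinarith)
    have h1 : x + R k * y - (x + s * e) = (R k : ℂ) * (y - ((s / R k : ℝ) : ℂ) * e) := by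
      have : (R k : ℂ) ≠ 0 := by exact_mod_cast hRk.ne'
      push_cast
      field_simp
      ring
    rw [h1, norm_mul, Complex.norm_real, Real.norm_of_nonneg hRk.le, mul_comm (t / 10)] at hse
    have h2 : ‖y - ((s / R k : ℝ) : ℂ) * e‖ ≤ t / 10 := le_of_mul_le_mul_left hse hRk
    set τ : ℝ := s / R k with hτ
    have hτ0 : 0 ≤ τ := by positivity
    have h3 : ‖z - (τ : ℂ) * e‖ ≤ 2 * t / 10 := by
      have h4 : z - (τ : ℂ) * e = (y - (τ : ℂ) * e) - (y - z) := by ring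
      rw [h4]
      have := norm_sub_le (y - (τ : ℂ) * e) (y - z)
      linarith
    have h5 : ‖(τ : ℂ) * e‖ = τ := by
      rw [norm_mul, he, Complex.norm_real, Real.norm_of_nonneg hτ0, mul_one]
    have h6 : |τ - t| ≤ 2 * t / 10 := by
      have h7 := abs_norm_sub_norm_le z ((τ : ℂ) * e)
      rw [h5, hzt, abs_sub_comm] at h7
      exact h7.trans h3
    have h7 : z - (t : ℂ) * e = (z - (τ : ℂ) * e) + ((τ - t : ℝ) : ℂ) * e := by
      push_cast; ring
    rw [h7]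
    have h8 : ‖((τ - t : ℝ) : ℂ) * e‖ = |τ - t| := by
      rw [norm_mul, he, Complex.norm_real, mul_one, Real.norm_eq_abs]
    have := norm_add_le (z - (τ : ℂ) * e) (((τ - t : ℝ) : ℂ) * e)
    rw [h8] at this
    linarith
  have k1 := key z₁ hz₁ hn₁
  have k2 := key z₂ hz₂ hn₂
  have k3 : z₁ - z₂ = (z₁ - t * e) - (z₂ - t * e) := by ring
  have k4 := norm_sub_le (z₁ - t * e) (z₂ - t * e)
  rw [← k3] at k4
  linarith

/-! ### the length growth -/

/-- Blow-downs of an element whose ratio tends to `1`: the length of the disc of radius `R` is at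
most `(1 + ε) R` for `R` large. -/
theorem dg_len (hG : B6Class b6G b6D b6e) {u : ℂ → ℝ} {K : Set ℂ} (h : TGlob u K)
    (h0 : (0 : ℂ) ∈ K) (hlim : Tendsto (fun r => b6D (b6of u K) r / r) atTop (𝓝 1)) {ε : ℝ}
    (hε : 0 < ε) :
    ∀ᶠ R in atTop, (μH[1] : Measure ℂ) (K ∩ closedBall 0 R) ≤ ENNReal.ofReal ((1 + ε) * R) := by
  by_contra hcon
  rw [Filter.not_eventually] at hcon
  obtain ⟨R, hR, hbad⟩ := exists_seq_forall_of_frequently
    (hcon.and_eventually (eventually_gt_atTop (0 : ℝ)))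
  have hR0 : ∀ k, 0 < R k := fun k => (hbad k).2
  have hmin : TMin univ u (clab K) K := h
  have hsc : ∀ k, TMin univ (fun y => u (0 + R k • y) / Real.sqrt (R k))
      (fun y => clab K (0 + R k • y)) ((fun y : ℂ => 0 + R k • y) ⁻¹' K) := by
    intro k
    have h2 := hmin.scale 0 (hR0 k)
    rwa [preimage_univ] at h2
  have hscG : ∀ k, TGlob (fun y => u (0 + R k • y) / Real.sqrt (R k))
      ((fun y : ℂ => 0 + R k • y) ⁻¹' K) := fun k => (hsc k).toTGlob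
  have h0k : ∀ k, (0 : ℂ) ∈ (fun y : ℂ => 0 + R k • y) ⁻¹' K := by
    intro k
    simpa using h0
  obtain ⟨φ, hφ, u', K', hG', h0', hc, he⟩ := b6_cpt_gen (R := fun n : ℕ => (n : ℝ))
    tendsto_natCast_atTop_atTop (Ωn := fun _ => univ) hsc (fun n => subset_univ _) h0k
  have heq : ∀ k, (b6of u K).resc 0 (R k) =
      b6of (fun y => u (0 + R k • y) / Real.sqrt (R k)) ((fun y : ℂ => 0 + R k • y) ⁻¹' K) :=
    fun k => b6of_resc u K 0 (hR0 k)
  have hQ : b6of u K ∈ b6G := ⟨u, K, h, rfl⟩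
  have hc' : B6Conv (fun n => (b6of u K).resc 0 (R (φ n))) (b6of u' K') := by
    have : (fun n => (b6of u K).resc 0 (R (φ n))) = fun n =>
        b6of (fun y => u (0 + R (φ n) • y) / Real.sqrt (R (φ n)))
          ((fun y : ℂ => 0 + R (φ n) • y) ⁻¹' K) := by
      funext n; exact heq (φ n)
    rw [this]; exact hc
  have hRφ : Tendsto (fun n => R (φ n)) atTop atTop := hR.comp hφ.tendsto_atTop
  have hDlim : ∀ r : ℝ, 0 < r →
      Tendsto (fun n => b6D ((b6of u K).resc 0 (R (φ n))) r) atTop (𝓝 r) := by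
    intro r hr
    have h1 : Tendsto (fun n => R (φ n) * r) atTop atTop := hRφ.atTop_mul_const hr
    have h2 := (hlim.comp h1).mul_const r
    rw [one_mul] at h2
    refine h2.congr fun n => ?_
    have := hR0 (φ n)
    rw [b6_dresc' _ this]
    simp only [Function.comp]
    field_simp
  have hD' : ∀ r : ℝ, 0 < r → b6D (b6of u' K') r = 1 * r := by
    intro r hr
    rw [one_mul]
    exact tendsto_nhds_unique (hG.Dcont _ _ (fun n => hG.resc0 _ hQ h0 _ (hR0 (φ n)))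
      (fun n => by simpa [B6El.resc, b6of] using h0) ⟨u', K', hG', rfl⟩ h0' hc' r hr) (hDlim r hr)
  have htip : B6Tip (b6of u' K') := by
    rcases hG.cls _ ⟨u', K', hG', rfl⟩ h0' 1 hD' with ⟨h7, -, -⟩ | ⟨-, h7⟩
    · norm_num at h7
    · exact h7
  have he' : b6e (b6of u' K') ≤ 2 := hG.etip _ ⟨u', K', hG', rfl⟩ htip (by
    rw [hD' 1 one_pos, one_mul])
  obtain ⟨k, hk1, hk2⟩ := ((he (ε / 2) (by positivity)).and
    ((hDlim 1 one_pos).eventually_const_lt (show 1 - ε / 4 < 1 by linarith))).exists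
  rw [heq (φ k)] at hk2
  set Rk : ℝ := R (φ k) with hRk
  have hRk0 : 0 < Rk := hR0 (φ k)
  have hfin : b6E (b6of (fun y => u (0 + Rk • y) / Real.sqrt Rk)
      ((fun y : ℂ => 0 + Rk • y) ⁻¹' K)) ≠ ⊤ := by
    rw [b6E_of _ _ (hsc (φ k)).toTConf.measurableSet]
    exact ((hsc (φ k)).toTConf.fin _ (isCompact_closedBall 0 1) (subset_univ _)).ne
  have hlen : ENNReal.ofReal (1 + ε) ≤
      (μH[1] : Measure ℂ) ((fun y : ℂ => 0 + Rk • y) ⁻¹' K ∩ closedBall 0 1) := by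
    have h1 : (fun y : ℂ => 0 + Rk • y) ⁻¹' K ∩ closedBall 0 1
        = scaT 0 Rk ⁻¹' (K ∩ closedBall 0 Rk) := by
      have h2 : scaT 0 Rk ⁻¹' closedBall (0 : ℂ) Rk = closedBall 0 1 := by
        have := sca_closedBall 0 hRk0 0 1
        simpa [scaT] using this
      rw [preimage_inter, h2]
      rfl
    rw [h1, sca_haus 0 hRk0]
    have h3 : ENNReal.ofReal (1 + ε) = ENNReal.ofReal Rk⁻¹ * ENNReal.ofReal ((1 + ε) * Rk) := by
      rw [← ENNReal.ofReal_mul (by positivity)]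
      congr 1
      field_simp
    rw [h3]
    gcongr
    exact (not_le.1 (hbad (φ k)).1).le
  have h5 : ENNReal.ofReal (1 - ε / 4 + (1 + ε)) ≤ b6E (b6of (fun y => u (0 + Rk • y) /
      Real.sqrt Rk) ((fun y : ℂ => 0 + Rk • y) ⁻¹' K)) := by
    rw [b6E_eq (hscG (φ k))]
    refine (ENNReal.ofReal_add_le).trans ?_
    gcongr
  have h6 : 1 - ε / 4 + (1 + ε) ≤ b6e (b6of (fun y => u (0 + Rk • y) /
      Real.sqrt Rk) ((fun y : ℂ => 0 + Rk • y) ⁻¹' K)) := by
    rw [b6e, ← ENNReal.ofReal_le_iff_le_toReal hfin]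
    exact h5
  linarith

end Pool.Agent.MP099f24
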