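import Mathlib
import Pool.Agent.Lib.MP_099f24_an.Z.Comp
import Pool.Agent.Lib.MP_099f24_an.ZG.Core

/-!
# De Giorgi's classification, part DG2: no jump set without gradient when labels are constant
-/

namespace Pool.Agent.MP099f24

open MeasureTheory Filter Topology Set Metric
open scoped ENNReal ContDiff

/-- coordinates with origin `x` and first axis `e` -/
noncomputable def dgc (x e z : ℂ) : ℂ := (z - x) * (starRingEnd ℂ) e

theorem dgc_mul {e : ℂ} (he : ‖e‖ = 1) (x z : ℂ) : x + dgc x e z * e = z := by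
  have h1 : (starRingEnd ℂ) e * e = 1 := by
    rw [mul_comm, Complex.mul_conj, Complex.normSq_eq_norm_sq, he]; norm_num
  unfold dgc
  rw [mul_assoc, h1]
  ring

theorem dgc_add {e : ℂ} (he : ‖e‖ = 1) (x c : ℂ) : dgc x e (x + c * e) = c := by
  have h1 : e * (starRingEnd ℂ) e = 1 := by
    rw [Complex.mul_conj, Complex.normSq_eq_norm_sq, he]; norm_num
  unfold dgc
  rw [add_sub_cancel_left, mul_assoc, h1, mul_one]

theorem dgc_cont (x e : ℂ) : Continuous (dgc x e) := by
  unfold dgc; fun_prop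

theorem dgc_affine (x e p q : ℂ) {a b : ℝ} (hab : a + b = 1) :
    dgc x e (a • p + b • q) = a • dgc x e p + b • dgc x e q := by
  unfold dgc
  have : (a : ℂ) + b = 1 := by exact_mod_cast hab
  simp only [Complex.real_smul]
  linear_combination (x * (starRingEnd ℂ) e) * this

/-- the jump set in a sector is a ray -/
theorem dg_sector {K : Set ℂ} (h : ZGData K) (hne : K.Nonempty) :
    ∃ x e : ℂ, ‖e‖ = 1 ∧ ∀ z, |(dgc x e z).im| < (dgc x e z).re →
      (z ∈ K ↔ (dgc x e z).im = 0) := by
  rcases zg_core h hne with ⟨x, e, he, hK⟩ | ⟨x, e, he, hK⟩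
  · refine ⟨x, e, he, fun z hz => ?_⟩
    rw [hK]
    constructor
    · rintro ⟨s, rfl⟩
      rw [dgc_add he, Complex.ofReal_im]
    · intro h0
      refine ⟨(dgc x e z).re, ?_⟩
      have h1 : ((dgc x e z).re : ℂ) = dgc x e z := by
        apply Complex.ext <;> simp [h0]
      rw [h1, dgc_mul he]
  · refine ⟨x, e, he, fun z hz => ?_⟩
    have hre : 0 < (dgc x e z).re := (abs_nonneg _).trans_lt hz
    constructor
    · intro hzK
      rw [hK] at hzK
      obtain ⟨f, hf, s, hs, rfl⟩ := hzK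
      have hf' : f = e ∨ f = zgω * e ∨ f = zgω ^ 2 * e := by
        simpa [zgTri] using hf
      rcases hf' with rfl | rfl | rfl
      · rw [dgc_add he, Complex.ofReal_im]
      · exfalso
        rw [← mul_assoc, dgc_add he] at hre
        simp [zgω_re] at hre
        linarith
      · exfalso
        rw [← mul_assoc, dgc_add he, zgω_sq] at hre
        simp [zgω_re] at hre
        linarith
    · intro h0
      rw [hK]
      refine ⟨e, by simp [zgTri], (dgc x e z).re, hre.le, ?_⟩
      have h1 : ((dgc x e z).re : ℂ) = dgc x e z := by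
        apply Complex.ext <;> simp [h0]
      rw [h1, dgc_mul he]

theorem dg_const {u : ℂ → ℝ} {K : Set ℂ} (hu : ContDiffOn ℝ 1 u Kᶜ)
    (hg : ∀ x, x ∉ K → cgr u x = 0) {W : Set ℂ} (hW : IsOpen W) (hWc : Convex ℝ W)
    (hWK : ∀ z ∈ W, z ∉ K) {p q : ℂ} (hp : p ∈ W) (hq : q ∈ W) : u p = u q := by
  have hdiff : DifferentiableOn ℝ u W := (hu.differentiableOn (by norm_num)).mono hWK
  exact hW.is_const_of_fderiv_eq_zero hWc.isPreconnected hdiff
    (fun z hz => zc_fderiv (hg z (hWK z hz))) hp hq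

/-- a fixed cut-off function -/
theorem dg_cut : ∃ (φ : ℂ → ℝ) (C : ℝ), ContDiff ℝ 1 φ ∧ (∀ z, ‖z‖ ≤ 1 / 4 → φ z = 1) ∧
    (∀ z, 1 / 2 ≤ ‖z‖ → φ z = 0) ∧ 0 ≤ C ∧ ∀ z, ‖fderiv ℝ φ z‖ ≤ C := by
  let f : ContDiffBump (0 : ℂ) := ⟨1 / 4, 1 / 2, by norm_num, by norm_num⟩
  have hf : ContDiff ℝ 1 (f : ℂ → ℝ) := f.contDiff
  have hc : HasCompactSupport (fderiv ℝ (f : ℂ → ℝ)) := f.hasCompactSupport.fderiv (𝕜 := ℝ)
  have hcont : Continuous (fderiv ℝ (f : ℂ → ℝ)) := hf.continuous_fderiv (by norm_num)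
  obtain ⟨C, hC⟩ := hc.exists_bound_of_continuous hcont
  refine ⟨f, C, hf, ?_, ?_, (norm_nonneg _).trans (hC 0), hC⟩
  · intro z hz
    apply f.one_of_mem_closedBall
    simpa [mem_closedBall, dist_zero_right, f] using hz
  · intro z hz
    apply f.zero_of_le_dist
    simpa [dist_zero_right, f] using hz

theorem dg_cgr_le (w : ℂ → ℝ) (z : ℂ) : ‖cgr w z‖ ≤ 2 * ‖fderiv ℝ w z‖ := by
  unfold cgr
  refine (norm_add_le _ _).trans ?_
  rw [norm_mul, Complex.norm_I, mul_one, Complex.norm_real, Complex.norm_real]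
  have h1 := (fderiv ℝ w z).le_opNorm 1
  have h2 := (fderiv ℝ w z).le_opNorm Complex.I
  rw [norm_one, mul_one] at h1
  rw [Complex.norm_I, mul_one] at h2
  linarith


/-- the competitor -/
noncomputable def dgw (φ : ℂ → ℝ) (u : ℂ → ℝ) (x e y : ℂ) (m d R : ℝ) (z : ℂ) : ℝ :=
  open Classical in
  if z ∈ ball y R then
    m + (if 0 < (dgc x e z).im then d else -d) * (1 - φ ((R⁻¹ : ℝ) • (z - y)))
  else u z

theorem dg_local {u : ℂ → ℝ} {K : Set ℂ} (hK : IsClosed K) (hu : ContDiffOn ℝ 1 u Kᶜ)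
    (hg : ∀ x, x ∉ K → cgr u x = 0) {x e : ℂ} {m d : ℝ}
    (hKW : ∀ z, |(dgc x e z).im| < (dgc x e z).re → (z ∈ K ↔ (dgc x e z).im = 0))
    (h1 : ∀ z, 0 < (dgc x e z).im → (dgc x e z).im < (dgc x e z).re → u z = m + d)
    (h2 : ∀ z, (dgc x e z).im < 0 → -(dgc x e z).im < (dgc x e z).re → u z = m - d)
    {φ : ℂ → ℝ} {C : ℝ} (hφ : ContDiff ℝ 1 φ) (hφ1 : ∀ z, ‖z‖ ≤ 1 / 4 → φ z = 1)
    (hφ0 : ∀ z, 1 / 2 ≤ ‖z‖ → φ z = 0) (hC : 0 ≤ C) (hφC : ∀ z, ‖fderiv ℝ φ z‖ ≤ C)
    {y : ℂ} {R : ℝ} (hR : 0 < R)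
    (hy : ∀ z ∈ ball y R, |(dgc x e z).im| < (dgc x e z).re) {z : ℂ}
    (hz : z ∉ K \ ball y (R / 4)) :
    ContDiffAt ℝ 1 (dgw φ u x e y m d R) z ∧
      ‖cgr (dgw φ u x e y m d R) z‖ ≤ 2 * (|d| * (C * R⁻¹)) := by
  classical
  have hM : 0 ≤ 2 * (|d| * (C * R⁻¹)) := by positivity
  have hnorm : ∀ y' : ℂ, ‖(R⁻¹ : ℝ) • (y' - y)‖ = R⁻¹ * dist y' y := by
    intro y'
    rw [norm_smul, Real.norm_of_nonneg (by positivity), dist_eq_norm]
  by_cases hz1 : z ∈ closedBall y (R / 2)
  swap
  · -- outside the closed ball of radius `R / 2`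
    have hzK : z ∉ K := by
      intro hzK
      apply hz
      refine ⟨hzK, fun hzb => hz1 ?_⟩
      exact closedBall_subset_closedBall (by linarith) (ball_subset_closedBall hzb)
    have hev : dgw φ u x e y m d R =ᶠ[𝓝 z] u := by
      filter_upwards [isClosed_closedBall.isOpen_compl.mem_nhds hz1, hK.isOpen_compl.mem_nhds hzK]
        with z' hz' hz'K
      unfold dgw
      split_ifs with hb hs
      · have h3 : φ ((R⁻¹ : ℝ) • (z' - y)) = 0 := by
          apply hφ0
          rw [hnorm]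
          have : R / 2 < dist z' y := not_le.mp hz'
          have h4 : R⁻¹ * (R / 2) ≤ R⁻¹ * dist z' y :=
            mul_le_mul_of_nonneg_left this.le (by positivity)
          have h5 : R⁻¹ * (R / 2) = 1 / 2 := by field_simp
          linarith
        rw [h3, h1 z' hs ((le_abs_self _).trans_lt (hy z' hb))]
        ring
      · have h3 : φ ((R⁻¹ : ℝ) • (z' - y)) = 0 := by
          apply hφ0
          rw [hnorm]
          have : R / 2 < dist z' y := not_le.mp hz'
          have h4 : R⁻¹ * (R / 2) ≤ R⁻¹ * dist z' y :=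
            mul_le_mul_of_nonneg_left this.le (by positivity)
          have h5 : R⁻¹ * (R / 2) = 1 / 2 := by field_simp
          linarith
        have h6 : (dgc x e z').im ≠ 0 := fun h0 => hz'K ((hKW z' (hy z' hb)).2 h0)
        have h7 : (dgc x e z').im < 0 := lt_of_le_of_ne (not_lt.mp hs) h6
        rw [h3, h2 z' h7 ((neg_le_abs _).trans_lt (hy z' hb))]
        ring
      · rfl
    have hcd : ContDiffAt ℝ 1 u z := hu.contDiffAt (hK.isOpen_compl.mem_nhds hzK)
    refine ⟨hcd.congr_of_eventuallyEq hev, ?_⟩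
    have : cgr (dgw φ u x e y m d R) z = cgr u z := by
      unfold cgr
      rw [hev.fderiv_eq]
    rw [this, hg z hzK, norm_zero]
    exact hM
  have hzb : z ∈ ball y R := closedBall_subset_ball (by linarith) hz1
  by_cases hz2 : z ∈ ball y (R / 4)
  · -- the central ball
    have hev : dgw φ u x e y m d R =ᶠ[𝓝 z] fun _ => m := by
      filter_upwards [isOpen_ball.mem_nhds hz2, isOpen_ball.mem_nhds hzb] with z' hz' hzb'
      have h3 : φ ((R⁻¹ : ℝ) • (z' - y)) = 1 := by
        apply hφ1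
        rw [hnorm]
        have : dist z' y < R / 4 := hz'
        have h4 : R⁻¹ * dist z' y ≤ R⁻¹ * (R / 4) :=
          mul_le_mul_of_nonneg_left this.le (by positivity)
        have h5 : R⁻¹ * (R / 4) = 1 / 4 := by field_simp
        linarith
      unfold dgw
      rw [if_pos hzb', h3]
      ring
    refine ⟨contDiffAt_const.congr_of_eventuallyEq hev, ?_⟩
    have : cgr (dgw φ u x e y m d R) z = 0 := by
      unfold cgr
      rw [hev.fderiv_eq]
      simp
    rw [this, norm_zero]
    exact hM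
  · have hzK : z ∉ K := fun hzK => hz ⟨hzK, hz2⟩
    have h6 : (dgc x e z).im ≠ 0 := fun h0 => hzK ((hKW z (hy z hzb)).2 h0)
    have him : Continuous fun z' => (dgc x e z').im := Complex.continuous_im.comp (dgc_cont x e)
    obtain ⟨s, hs, hev⟩ : ∃ s : ℝ, |s| = |d| ∧ dgw φ u x e y m d R =ᶠ[𝓝 z]
        fun z' => m + s * (1 - φ ((R⁻¹ : ℝ) • (z' - y))) := by
      rcases lt_or_gt_of_ne h6 with h7 | h7
      · refine ⟨-d, abs_neg d, ?_⟩
        filter_upwards [isOpen_ball.mem_nhds hzb, (isOpen_lt him continuous_const).mem_nhds h7]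
          with z' hz' h8
        unfold dgw
        rw [if_pos hz', if_neg (not_lt.mpr (le_of_lt h8))]
      · refine ⟨d, rfl, ?_⟩
        filter_upwards [isOpen_ball.mem_nhds hzb, (isOpen_lt continuous_const him).mem_nhds h7]
          with z' hz' h8
        unfold dgw
        rw [if_pos hz', if_pos h8]
    have hcd : ContDiffAt ℝ 1 (fun z' => m + s * (1 - φ ((R⁻¹ : ℝ) • (z' - y)))) z := by
      fun_prop
    refine ⟨hcd.congr_of_eventuallyEq hev, (dg_cgr_le _ _).trans ?_⟩
    rw [hev.fderiv_eq]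
    have hA : HasFDerivAt (fun z' : ℂ => (R⁻¹ : ℝ) • (z' - y))
        ((R⁻¹ : ℝ) • ContinuousLinearMap.id ℝ ℂ) z :=
      ((hasFDerivAt_id z).sub_const y).const_smul (R⁻¹ : ℝ)
    have hB : HasFDerivAt φ (fderiv ℝ φ ((R⁻¹ : ℝ) • (z - y))) ((R⁻¹ : ℝ) • (z - y)) :=
      ((hφ.differentiable (by norm_num)) _).hasFDerivAt
    have hD := (((hB.comp z hA).const_sub 1).const_mul s).const_add m
    have hD' : fderiv ℝ (fun z' => m + s * (1 - φ ((R⁻¹ : ℝ) • (z' - y)))) z = _ := hD.fderiv
    rw [hD', norm_smul, norm_neg, Real.norm_eq_abs, hs]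
    have h9 : ‖(fderiv ℝ φ ((R⁻¹ : ℝ) • (z - y))).comp ((R⁻¹ : ℝ) • ContinuousLinearMap.id ℝ ℂ)‖ ≤
        C * R⁻¹ := by
      refine (ContinuousLinearMap.opNorm_comp_le _ _).trans ?_
      refine mul_le_mul (hφC _) ?_ (norm_nonneg _) hC
      rw [norm_smul, Real.norm_of_nonneg (by positivity)]
      calc R⁻¹ * ‖ContinuousLinearMap.id ℝ ℂ‖ ≤ R⁻¹ * 1 :=
            mul_le_mul_of_nonneg_left ContinuousLinearMap.norm_id_le (by positivity)
        _ = R⁻¹ := mul_one _
    gcongr


theorem dg_bound {u : ℂ → ℝ} {K : Set ℂ} (h : TMin univ u (fun _ => ∅) K)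
    (hg : ∀ x, x ∉ K → cgr u x = 0) {y : ℂ} (hy : y ∈ K) {R M : ℝ} (hR : 0 < R)
    {w : ℂ → ℝ} (hw : ∀ z, z ∉ K \ ball y (R / 4) → ContDiffAt ℝ 1 w z ∧ ‖cgr w z‖ ≤ M)
    (hwu : ∀ z, z ∉ closedBall y (R / 2) → z ∉ K → w z = u z) :
    R / 2 ≤ M ^ 2 * (Real.pi * (R / 2) ^ 2) := by
  have hK : IsClosed K := by
    have := h.isOpen_off
    rw [← compl_eq_univ_sdiff] at this
    exact isOpen_compl_iff.mp this
  set K' := K \ ball y (R / 4) with hK'
  have hK'c : IsClosed K' := hK.sdiff isOpen_ball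
  have hKfin : ∀ C, IsCompact C → (μH[1] : Measure ℂ) (K ∩ C) < ⊤ := by
    intro C hC
    exact (le_add_self).trans_lt (h.fin C hC (subset_univ C))
  have hK'fin : ∀ C, IsCompact C → (μH[1] : Measure ℂ) (K' ∩ C) < ⊤ := by
    intro C hC
    exact (measure_mono (inter_subset_inter_left _ sdiff_subset)).trans_lt (hKfin C hC)
  have hint : ∀ A : Set ℂ, MeasurableSet A →
      (∫⁻ z in A \ K', ‖cgr w z‖ₑ ^ 2) ≤ ENNReal.ofReal (M ^ 2) * volume A := by
    intro A hA
    calc (∫⁻ z in A \ K', ‖cgr w z‖ₑ ^ 2) ≤ ∫⁻ z in A \ K', ENNReal.ofReal (M ^ 2) := by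
          refine setLIntegral_mono' (hA.diff hK'c.measurableSet) fun z hz => ?_
          have h1 := (hw z hz.2).2
          rw [← ofReal_norm, ← ENNReal.ofReal_pow (norm_nonneg _)]
          exact ENNReal.ofReal_le_ofReal (pow_le_pow_left₀ (norm_nonneg _) h1 2)
      _ = ENNReal.ofReal (M ^ 2) * volume (A \ K') := by
          rw [setLIntegral_const]
      _ ≤ ENNReal.ofReal (M ^ 2) * volume A := by
          gcongr
          exact sdiff_subset
  have hconf : TConf univ w (fun _ => ∅) K' := by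
    refine ⟨isOpen_univ, subset_univ _, ?_, ?_, ?_, ?_⟩
    · rw [← compl_eq_univ_sdiff]
      exact hK'c.isOpen_compl
    · intro z hz
      exact (hw z hz.2).1.contDiffWithinAt
    · intro z _
      exact Eventually.of_forall fun _ => rfl
    · intro C hC _
      unfold cen
      refine ENNReal.add_lt_top.mpr ⟨(hint C hC.measurableSet).trans_lt ?_, hK'fin C hC⟩
      exact ENNReal.mul_lt_top ENNReal.ofReal_lt_top hC.measure_lt_top
  have hmin := h.min w (fun _ => ∅) K' (closedBall y (R / 2)) hconf (isCompact_closedBall _ _)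
    (subset_univ _)
    (by
      intro z hz
      refine ⟨fun h1 => h1.1, fun h1 => ⟨h1, fun h2 => hz.2 ?_⟩⟩
      exact closedBall_subset_closedBall (by linarith) (ball_subset_closedBall h2))
    (fun z hz hzK => ⟨hwu z hz.2 hzK, rfl⟩)
  rw [zc_cen hK measurableSet_closedBall hg] at hmin
  have h1 : (μH[1] : Measure ℂ) (K ∩ closedBall y (R / 2)) =
      (μH[1] : Measure ℂ) (K' ∩ closedBall y (R / 2)) + (μH[1] : Measure ℂ) (K ∩ ball y (R / 4)) := by
    rw [← measure_union]
    · congr 1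
      ext z
      constructor
      · rintro ⟨hz1, hz2⟩
        by_cases hz3 : z ∈ ball y (R / 4)
        · exact Or.inr ⟨hz1, hz3⟩
        · exact Or.inl ⟨⟨hz1, hz3⟩, hz2⟩
      · rintro (⟨hz1, hz2⟩ | ⟨hz1, hz2⟩)
        · exact ⟨hz1.1, hz2⟩
        · exact ⟨hz1, closedBall_subset_closedBall (by linarith) (ball_subset_closedBall hz2)⟩
    · rw [Set.disjoint_left]
      rintro z ⟨hz1, _⟩ ⟨_, hz2⟩
      exact hz1.2 hz2
    · exact hK.measurableSet.inter measurableSet_ball
  have h2 : ENNReal.ofReal (2 * (R / 4)) ≤ (μH[1] : Measure ℂ) (K ∩ ball y (R / 4)) := by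
    have := h.dens y hy (R / 4) (by positivity) (subset_univ _)
    rwa [zc_cen hK measurableSet_ball hg] at this
  have h3 : (μH[1] : Measure ℂ) (K ∩ ball y (R / 4)) ≤
      ENNReal.ofReal (M ^ 2) * volume (closedBall y (R / 2)) := by
    rw [h1] at hmin
    have h4 := hK'fin (closedBall y (R / 2)) (isCompact_closedBall _ _)
    have h5 : (μH[1] : Measure ℂ) (K' ∩ closedBall y (R / 2)) +
        (μH[1] : Measure ℂ) (K ∩ ball y (R / 4)) ≤
        (μH[1] : Measure ℂ) (K' ∩ closedBall y (R / 2)) +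
          ENNReal.ofReal (M ^ 2) * volume (closedBall y (R / 2)) := by
      refine hmin.trans ?_
      unfold cen
      rw [add_comm]
      gcongr
      exact hint _ measurableSet_closedBall
    exact (ENNReal.add_le_add_iff_left h4.ne).mp h5
  have h4 : volume (closedBall y (R / 2)) = ENNReal.ofReal (Real.pi * (R / 2) ^ 2) := by
    rw [Complex.volume_closedBall, mul_comm, ENNReal.ofReal_mul Real.pi_pos.le,
      ENNReal.ofReal_pow (by positivity)]
    congr 1
    rw [← ENNReal.ofReal_coe_nnreal]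
    rfl
  rw [h4, ← ENNReal.ofReal_mul (by positivity)] at h3
  have h5 := (ENNReal.ofReal_le_ofReal_iff (by positivity)).mp (h2.trans h3)
  linarith

/-- A topological minimizer in the plane with constant labels and zero gradient has an empty set
`K`. -/
theorem dg_noconst {u : ℂ → ℝ} {K : Set ℂ} (h : TMin univ u (fun _ => ∅) K)
    (hg : ∀ x, x ∉ K → cgr u x = 0) : K = ∅ := by
  by_contra hne
  obtain ⟨x, e, he, hKW⟩ := dg_sector (zg_of_tmin h hg) (nonempty_iff_ne_empty.mpr hne)
  have hK : IsClosed K := by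
    have := h.isOpen_off
    rw [← compl_eq_univ_sdiff] at this
    exact isOpen_compl_iff.mp this
  have hu : ContDiffOn ℝ 1 u Kᶜ := by
    have := h.smooth
    rwa [← compl_eq_univ_sdiff] at this
  have hre : Continuous fun z' => (dgc x e z').re := Complex.continuous_re.comp (dgc_cont x e)
  have him : Continuous fun z' => (dgc x e z').im := Complex.continuous_im.comp (dgc_cont x e)
  obtain ⟨φ, C, hφ, hφ1, hφ0, hC, hφC⟩ := dg_cut
  -- the two sectors
  set c1 := u (x + ((2 : ℂ) + Complex.I) * e) with hc1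
  set c2 := u (x + ((2 : ℂ) - Complex.I) * e) with hc2
  have hs1 : ∀ z, 0 < (dgc x e z).im → (dgc x e z).im < (dgc x e z).re → u z = c1 := by
    intro z hz1 hz2
    refine dg_const hu hg (W := {z | 0 < (dgc x e z).im ∧ (dgc x e z).im < (dgc x e z).re})
      ((isOpen_lt continuous_const him).inter (isOpen_lt him hre)) ?_ ?_ ⟨hz1, hz2⟩ ?_
    · rintro p ⟨hp1, hp2⟩ q ⟨hq1, hq2⟩ a b ha hb hab
      refine ⟨?_, ?_⟩
      · rw [dgc_affine x e p q hab]
        simp only [Complex.add_im, Complex.real_smul, Complex.im_ofReal_mul]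
        rcases eq_or_lt_of_le ha with rfl | ha'
        · have : b = 1 := by linarith
          subst this; simpa using hq1
        · have := mul_pos ha' hp1
          have := mul_nonneg hb hq1.le
          linarith
      · rw [dgc_affine x e p q hab]
        simp only [Complex.add_im, Complex.add_re, Complex.real_smul, Complex.re_ofReal_mul,
          Complex.im_ofReal_mul]
        rcases eq_or_lt_of_le ha with rfl | ha'
        · have : b = 1 := by linarith
          subst this; simpa using hq2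
        · have := mul_lt_mul_of_pos_left hp2 ha'
          have := mul_le_mul_of_nonneg_left hq2.le hb
          linarith
    · rintro p ⟨hp1, hp2⟩ hpK
      have h0 := (hKW p (by rw [abs_of_pos hp1]; exact hp2)).1 hpK
      exact hp1.ne' h0
    · show 0 < (dgc x e _).im ∧ (dgc x e _).im < (dgc x e _).re
      rw [dgc_add he]
      simp
  have hs2 : ∀ z, (dgc x e z).im < 0 → -(dgc x e z).im < (dgc x e z).re → u z = c2 := by
    intro z hz1 hz2
    refine dg_const hu hg (W := {z | (dgc x e z).im < 0 ∧ -(dgc x e z).im < (dgc x e z).re})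
      ((isOpen_lt him continuous_const).inter (isOpen_lt him.neg hre)) ?_ ?_ ⟨hz1, hz2⟩ ?_
    · rintro p ⟨hp1, hp2⟩ q ⟨hq1, hq2⟩ a b ha hb hab
      refine ⟨?_, ?_⟩
      · rw [dgc_affine x e p q hab]
        simp only [Complex.add_im, Complex.real_smul, Complex.im_ofReal_mul]
        rcases eq_or_lt_of_le ha with rfl | ha'
        · have : b = 1 := by linarith
          subst this; simpa using hq1
        · have := mul_neg_of_pos_of_neg ha' hp1
          have := mul_nonpos_of_nonneg_of_nonpos hb hq1.le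
          linarith
      · rw [dgc_affine x e p q hab]
        simp only [Complex.add_im, Complex.add_re, Complex.real_smul, Complex.re_ofReal_mul,
          Complex.im_ofReal_mul]
        rcases eq_or_lt_of_le ha with rfl | ha'
        · have : b = 1 := by linarith
          subst this; simpa using hq2
        · have := mul_lt_mul_of_pos_left hp2 ha'
          have := mul_le_mul_of_nonneg_left hq2.le hb
          linarith
    · rintro p ⟨hp1, hp2⟩ hpK
      have h0 := (hKW p (by rw [abs_of_neg hp1]; exact hp2)).1 hpK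
      exact hp1.ne h0
    · show (dgc x e _).im < 0 ∧ -(dgc x e _).im < (dgc x e _).re
      rw [dgc_add he]
      simp
  set m := (c1 + c2) / 2 with hm
  set d := (c1 - c2) / 2 with hd
  have key : ∀ R : ℝ, 0 < R → R / 2 ≤ |d| ^ 2 * C ^ 2 * Real.pi := by
    intro R hR
    set y : ℂ := x + ((2 * R : ℝ) : ℂ) * e with hy
    have hcy : ∀ z, dgc x e z = (z - y) * (starRingEnd ℂ) e + ((2 * R : ℝ) : ℂ) := by
      intro z
      have h1 : e * (starRingEnd ℂ) e = 1 := by
        rw [Complex.mul_conj, Complex.normSq_eq_norm_sq, he]; norm_num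
      rw [hy]
      unfold dgc
      linear_combination ((2 * R : ℝ) : ℂ) * h1
    have hyR : ∀ z ∈ ball y R, |(dgc x e z).im| < (dgc x e z).re := by
      intro z hz
      have h1 : ‖(z - y) * (starRingEnd ℂ) e‖ < R := by
        rw [norm_mul, RCLike.norm_conj, he, mul_one, ← dist_eq_norm]
        exact hz
      have h2 := Complex.abs_re_le_norm ((z - y) * (starRingEnd ℂ) e)
      have h3 := Complex.abs_im_le_norm ((z - y) * (starRingEnd ℂ) e)
      rw [hcy z, Complex.add_im, Complex.add_re, Complex.ofReal_re, Complex.ofReal_im, add_zero]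
      have h4 := (abs_le.mp h2).1
      linarith
    have hyK : y ∈ K := by
      have h1 := hyR y (mem_ball_self hR)
      refine (hKW y h1).2 ?_
      rw [hy, dgc_add he, Complex.ofReal_im]
    have hmd : m + d = c1 := by rw [hm, hd]; ring
    have hmd' : m - d = c2 := by rw [hm, hd]; ring
    have hloc := fun z (hz : z ∉ K \ ball y (R / 4)) =>
      dg_local hK hu hg (x := x) (e := e) (m := m) (d := d) hKW
        (fun z a b => (hs1 z a b).trans hmd.symm) (fun z a b => (hs2 z a b).trans hmd'.symm)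
        hφ hφ1 hφ0 hC hφC hR hyR hz
    have := dg_bound h hg hyK hR hloc (by
      intro z hz hzK
      unfold dgw
      split_ifs with hb hs
      · have h3 : φ ((R⁻¹ : ℝ) • (z - y)) = 0 := by
          apply hφ0
          rw [norm_smul, Real.norm_of_nonneg (by positivity), ← dist_eq_norm]
          have : R / 2 < dist z y := not_le.mp hz
          have h4 : R⁻¹ * (R / 2) ≤ R⁻¹ * dist z y :=
            mul_le_mul_of_nonneg_left this.le (by positivity)
          have h5 : R⁻¹ * (R / 2) = 1 / 2 := by field_simp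
          linarith
        rw [h3, hs1 z hs ((le_abs_self _).trans_lt (hyR z hb)), ← hmd]
        ring
      · have h3 : φ ((R⁻¹ : ℝ) • (z - y)) = 0 := by
          apply hφ0
          rw [norm_smul, Real.norm_of_nonneg (by positivity), ← dist_eq_norm]
          have : R / 2 < dist z y := not_le.mp hz
          have h4 : R⁻¹ * (R / 2) ≤ R⁻¹ * dist z y :=
            mul_le_mul_of_nonneg_left this.le (by positivity)
          have h5 : R⁻¹ * (R / 2) = 1 / 2 := by field_simp
          linarith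
        have h6 : (dgc x e z).im ≠ 0 := fun h0 => hzK ((hKW z (hyR z hb)).2 h0)
        have h7 : (dgc x e z).im < 0 := lt_of_le_of_ne (not_lt.mp hs) h6
        rw [h3, hs2 z h7 ((neg_le_abs _).trans_lt (hyR z hb)), ← hmd']
        ring
      · rfl)
    calc R / 2 ≤ (2 * (|d| * (C * R⁻¹))) ^ 2 * (Real.pi * (R / 2) ^ 2) := this
      _ = |d| ^ 2 * C ^ 2 * Real.pi := by
          field_simp
  have h1 := key (2 * (|d| ^ 2 * C ^ 2 * Real.pi + 1)) (by positivity)
  linarith

end Pool.Agent.MP099f24
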