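import Mathlib
import Pool.Agent.Lib.MP_099f24_an.DG.Lim
import Pool.Agent.Lib.MP_099f24_an.DG.NoConst
import Pool.Agent.Lib.MP_099f24_an.RG.Local
import Pool.Agent.Lib.MP_099f24_an.RG.Blow

/-!
# Global minimizers: the alternatives at a point of the set (module DG4, L1 - L3)
-/

set_option autoImplicit false

namespace Pool.Agent.MP099f24

open MeasureTheory Filter Topology Set Metric
open scoped ENNReal ContDiff ComplexConjugate

theorem dg_center_D (P : B6El) (x : ℂ) (r : ℝ) : b6D (P.resc x 1) r = Dq P.g x r := by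
  unfold b6D Dq B6El.resc
  have h1 : ∀ z : ℂ, ‖((Real.sqrt 1 : ℝ) : ℂ) * P.g (x + ((1 : ℝ) : ℂ) * z)‖ ^ 2 =
      (fun y => ‖P.g y‖ ^ 2) (x + z) := by
    intro z
    simp
  simp only [h1]
  have h2 : ball (0 : ℂ) r = (fun z => x + z) ⁻¹' ball x r := by
    ext z
    simp
  rw [h2]
  exact (measurePreserving_add_left volume x).setIntegral_preimage_emb
    (Homeomorph.addLeft x).measurableEmbedding (fun y => ‖P.g y‖ ^ 2) _

theorem dg_center_mem {u : ℂ → ℝ} {K : Set ℂ} (h : TGlob u K) {x : ℂ} (hx : x ∈ K) :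
    TGlob (fun y => u (x + (1 : ℝ) • y) / Real.sqrt 1) ((fun y : ℂ => x + (1 : ℝ) • y) ⁻¹' K) ∧
      (0 : ℂ) ∈ (fun y : ℂ => x + (1 : ℝ) • y) ⁻¹' K := by
  have hmin : TMin univ u (clab K) K := h
  have h2 := hmin.scale x one_pos
  rw [preimage_univ] at h2
  exact ⟨h2.toTGlob, by simpa using hx⟩

/-- **The three alternatives at a point of the set of a global element.** -/
theorem dg_alt_at (hC : B6Class b6G b6D b6e) {u : ℂ → ℝ} {K : Set ℂ} (h : TGlob u K) {x : ℂ}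
    (hx : x ∈ K) :
    (∀ z, z ∉ K → cgr u z = 0) ∨
    ((∃ e : ℂ, ‖e‖ = 1 ∧ K = {z | ∃ t : ℝ, 0 ≤ t ∧ z = x + t * e}) ∧
      ∀ r : ℝ, 0 < r → Dq (tgr u K) x r = r) ∨
    ((∃ Q' ∈ b6G, (0 : ℂ) ∈ Q'.K ∧ B6Zero Q' ∧ (B6Line Q'.K ∨ ∃ c, B6Tri Q'.K c) ∧
      ∃ R : ℕ → ℝ, (∀ k, 0 < R k) ∧ Tendsto R atTop (𝓝 0) ∧
        B6Conv (fun k => (b6of u K).resc x (R k)) Q') ∧
     (∀ r : ℝ, 0 < r → Dq (tgr u K) x r ≤ r) ∧
     Tendsto (fun r => Dq (tgr u K) x r / r) atTop (𝓝 1)) := by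
  obtain ⟨hT, h0⟩ := dg_center_mem h hx
  have hQ : (b6of u K).resc x 1 ∈ b6G := ⟨_, _, hT, b6of_resc u K x one_pos⟩
  have h0' : (0 : ℂ) ∈ ((b6of u K).resc x 1).K := by
    rw [b6of_resc u K x one_pos]
    exact h0
  have hD : ∀ r, b6D ((b6of u K).resc x 1) r = Dq (tgr u K) x r := fun r => dg_center_D _ x r
  have hmem : ∀ z : ℂ, z ∈ K ↔ z - x ∈ ((b6of u K).resc x 1).K := by
    intro z
    show z ∈ K ↔ x + ((1 : ℝ) : ℂ) * (z - x) ∈ K
    rw [Complex.ofReal_one, one_mul, add_sub_cancel]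
  rcases dg_alt hC hQ h0' with ⟨h1, -⟩ | ⟨⟨e, he, hK, -⟩, h2⟩ | ⟨⟨Q', hQ', h0Q, hz, hlt, R, hR0, hR,
    hc⟩, h2, h3⟩
  · left
    intro z hz
    have h2 := h1 (z - x) (fun h3 => hz ((hmem z).2 h3))
    have h3 : (b6of u K).g (x + ((1 : ℝ) : ℂ) * (z - x)) = cgr u z := by
      show tgr u K _ = _
      rw [Complex.ofReal_one, one_mul, add_sub_cancel, tgr_of_notMem hz]
    change (Real.sqrt 1 : ℂ) * (b6of u K).g (x + ((1 : ℝ) : ℂ) * (z - x)) = 0 at h2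
    rw [h3, Real.sqrt_one, Complex.ofReal_one, one_mul] at h2
    exact h2
  · right; left
    refine ⟨⟨e, he, ?_⟩, fun r hr => by rw [← hD r, h2 r hr]⟩
    ext z
    rw [hmem z, hK]
    constructor
    · rintro ⟨t, ht, hte⟩
      exact ⟨t, ht, by rw [← hte]; ring⟩
    · rintro ⟨t, ht, hte⟩
      exact ⟨t, ht, by rw [hte]; ring⟩
  · right; right
    refine ⟨⟨Q', hQ', h0Q, hz, hlt, R, hR0, hR, ?_⟩, fun r hr => by rw [← hD r]; exact h2 r hr, ?_⟩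
    · have h4 : (fun k => ((b6of u K).resc x 1).resc 0 (R k)) =
          fun k => (b6of u K).resc x (R k) := by
        funext k
        rw [b6_resc_resc0 _ _ _ _ zero_le_one, one_mul]
      rw [← h4]
      exact hc
    · simpa only [hD] using h3

/-- the length in large discs around a point of the set -/
theorem dg_len_at (hC : B6Class b6G b6D b6e) {u : ℂ → ℝ} {K : Set ℂ} (h : TGlob u K) {x : ℂ}
    (hx : x ∈ K) (hlim : Tendsto (fun r => Dq (tgr u K) x r / r) atTop (𝓝 1)) {ε : ℝ}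
    (hε : 0 < ε) :
    ∀ᶠ R in atTop, (μH[1] : Measure ℂ) (K ∩ closedBall x R) ≤ ENNReal.ofReal ((1 + ε) * R) := by
  obtain ⟨hT, h0⟩ := dg_center_mem h hx
  have hD : ∀ r, b6D ((b6of u K).resc x 1) r = Dq (tgr u K) x r := fun r => dg_center_D _ x r
  rw [b6of_resc u K x one_pos] at hD
  have h1 := dg_len hC hT h0 (by simpa only [hD] using hlim) hε
  filter_upwards [h1] with R hR
  refine le_trans (le_of_eq ?_) hR
  have h2 : (fun y : ℂ => x + (1 : ℝ) • y) ⁻¹' K ∩ closedBall 0 R =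
      scaT x 1 ⁻¹' (K ∩ closedBall x R) := by
    have h3 : scaT x 1 ⁻¹' closedBall x R = closedBall 0 R := by
      ext z
      simp [scaT]
    rw [preimage_inter, h3]
    rfl
  rw [h2, sca_haus x one_pos]
  simp

/-- **(L1)** -/
theorem dg_lim (hC : B6Class b6G b6D b6e) {u : ℂ → ℝ} {K : Set ℂ}
    (h : TMin univ u (fun _ => ∅) K) :
    (∃ x ∈ K, (∃ e : ℂ, ‖e‖ = 1 ∧ K = {z | ∃ t : ℝ, 0 ≤ t ∧ z = x + t * e}) ∧
      ∀ r : ℝ, 0 < r → Dq (tgr u K) x r = r) ∨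
    (∀ x ∈ K, (∃ Q' ∈ b6G, (0 : ℂ) ∈ Q'.K ∧ B6Zero Q' ∧ (B6Line Q'.K ∨ ∃ c, B6Tri Q'.K c) ∧
      ∃ R : ℕ → ℝ, (∀ k, 0 < R k) ∧ Tendsto R atTop (𝓝 0) ∧
        B6Conv (fun k => (b6of u K).resc x (R k)) Q') ∧
     (∀ r : ℝ, 0 < r → Dq (tgr u K) x r ≤ r) ∧
     Tendsto (fun r => Dq (tgr u K) x r / r) atTop (𝓝 1)) := by
  by_cases hcase : ∃ x ∈ K, (∃ e : ℂ, ‖e‖ = 1 ∧ K = {z | ∃ t : ℝ, 0 ≤ t ∧ z = x + t * e}) ∧
      ∀ r : ℝ, 0 < r → Dq (tgr u K) x r = r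
  · exact Or.inl hcase
  · right
    intro x hx
    rcases dg_alt_at hC h.toTGlob hx with h1 | h1 | h1
    · rw [dg_noconst h h1] at hx
      exact hx.elim
    · exact (hcase ⟨x, hx, h1⟩).elim
    · exact h1

/-- **(L3)** -/
theorem dg_short (hC : B6Class b6G b6D b6e) {u : ℂ → ℝ} {K : Set ℂ} (h : TGlob u K) {x : ℂ}
    (hx : x ∈ K) (hlim : Tendsto (fun r => Dq (tgr u K) x r / r) atTop (𝓝 1)) :
    ∃ r : ℝ, 0 < r ∧ (μH[1] : Measure ℂ) (K ∩ ball x r) < ENNReal.ofReal (2 * r) := by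
  obtain ⟨R, hR1, hR2⟩ := ((dg_len_at hC h hx hlim (ε := 1 / 2) (by norm_num)).and
    (eventually_gt_atTop 0)).exists
  refine ⟨R, hR2, ?_⟩
  calc (μH[1] : Measure ℂ) (K ∩ ball x R) ≤ (μH[1] : Measure ℂ) (K ∩ closedBall x R) :=
        measure_mono (inter_subset_inter_right _ ball_subset_closedBall)
    _ ≤ ENNReal.ofReal ((1 + 1 / 2) * R) := hR1
    _ < ENNReal.ofReal (2 * R) := by
        rw [ENNReal.ofReal_lt_ofReal_iff (by positivity)]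
        linarith

/-- **Regularity at the points where some blow-up is a line or a propeller.** -/
theorem dg_regular {Ω : Set ℂ} {u : ℂ → ℝ} {g j : ℂ → ℂ} (h : MSMin Ω u g j)
    (hC : B6Class b6G b6D b6e) {u' : ℂ → ℝ} {l : ℂ → Set ℂ}
    (hmin : TMin Ω u' l (closure (discSet Ω u)))
    (hae : ∀ᵐ z ∂(volume.restrict Ω), cgr u' z = g z) {p : ℂ} (hpΩ : p ∈ Ω)
    (hp : p ∈ closure (discSet Ω u)) {Q' : B6El} (h0 : (0 : ℂ) ∈ Q'.K)
    (hQ' : B6Line Q'.K ∨ ∃ c, B6Tri Q'.K c) {R : ℕ → ℝ} (hR0 : ∀ k, 0 < R k)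
    (hR : Tendsto R atTop (𝓝 0))
    (hc : B6Conv (fun k => (b6of u' (closure (discSet Ω u))).resc p (R k)) Q') :
    IsRegPt (closure (discSet Ω u)) p ∨ IsTriple (closure (discSet Ω u)) p := by
  obtain ⟨ρ, hρ, hρΩ⟩ := Metric.isOpen_iff.1 h.isOpen p hpΩ
  have hr := hmin.restrict isOpen_ball hρΩ
  rw [inter_comm] at hr
  have hb := rg_blow h hρ hρΩ (ae_restrict_of_ae_restrict_of_subset hρΩ hae) hC
    (b6_loc hρ hr ⟨mem_ball_self hρ, hp⟩)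
  rcases hb with H | ⟨H1, H2⟩ | ⟨H1, -⟩
  · exact Or.inl (rg_reg h hpΩ hp H)
  · exact Or.inr (rg_triple h hpΩ hp H1 H2)
  · exact (dg_not_ray (P := b6of u' (closure (discSet Ω u))) hQ' h0 hR0 hR hc H1).elim

end Pool.Agent.MP099f24
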