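import Pool.Agent.Lib.MP_099f24_an.B6.Cls
import Pool.Agent.Lib.MP_099f24_an.TR.Asm
import Pool.Agent.Lib.MP_099f24_an.TR.Data
import Pool.Agent.Lib.MP_099f24_an.SC.Bonnet
import Pool.Agent.Lib.MP_099f24_an.SC.Global
import Pool.Agent.Lib.MP_099f24_an.B6.Meet

/-!
# The explicit form of a crack tip (module DG4)
-/

set_option autoImplicit false

namespace Pool.Agent.MP099f24

open MeasureTheory Filter Topology Set Metric
open scoped ENNReal ContDiff ComplexConjugate

theorem dg_sqrt_re {ζ : ℂ} (hζ : ζ ≠ 0) :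
    Real.sqrt (1 / Real.pi * (‖ζ‖ + ζ.re)) =
      Real.sqrt (2 / Real.pi) * (Complex.exp (Complex.log ζ / 2)).re := by
  set E := Complex.exp (Complex.log ζ / 2) with hE
  have h1 : E * E = ζ := by
    rw [hE, ← Complex.exp_add, add_halves, Complex.exp_log hζ]
  have hre : 0 ≤ E.re := by
    rw [hE, Complex.exp_re]
    have h2 : (Complex.log ζ / 2).im = ζ.arg / 2 := by
      rw [show (2 : ℂ) = ((2 : ℝ) : ℂ) by norm_num, Complex.div_ofReal_im, Complex.log_im]
    rw [h2]
    have h3 := Complex.neg_pi_lt_arg ζ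
    have h4 := Complex.arg_le_pi ζ
    exact mul_nonneg (Real.exp_pos _).le (Real.cos_nonneg_of_mem_Icc ⟨by linarith, by linarith⟩)
  have h2 : ‖ζ‖ = E.re ^ 2 + E.im ^ 2 := by
    rw [← h1, norm_mul, ← sq, ← Complex.normSq_eq_norm_sq, Complex.normSq_apply]
    ring
  have h3 : ζ.re = E.re ^ 2 - E.im ^ 2 := by
    conv_lhs => rw [← h1]
    rw [Complex.mul_re]
    ring
  rw [h2, h3, show 1 / Real.pi * (E.re ^ 2 + E.im ^ 2 + (E.re ^ 2 - E.im ^ 2)) =
    2 / Real.pi * E.re ^ 2 by ring, Real.sqrt_mul (by positivity), Real.sqrt_sq hre]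

/-- the gradients of the crack tip and of its conjugate function -/
theorem dg_ctip_grad {e z : ℂ} (he : ‖e‖ = 1) (hz : z * conj e ∈ Complex.slitPlane) :
    ∃ L : ℂ, HasFDerivAt (fun y => Real.sqrt (1 / Real.pi * (‖y‖ + (y * conj e).re))) (ilin L) z ∧
      DifferentiableAt ℝ (ctip e) z ∧ cgr (ctip e) z = Complex.I * L := by
  have hne : z * conj e ≠ 0 := Complex.slitPlane_ne_zero hz
  have hz0 : z ≠ 0 := left_ne_zero_of_mul hne
  set f : ℂ → ℂ := fun y => Complex.exp (Complex.log (y * conj e) / 2) with hf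
  set f' : ℂ := Complex.exp (Complex.log (z * conj e) / 2) *
    (((z * conj e)⁻¹ * (1 * conj e)) / 2) with hf'
  have hd : HasDerivAt f f' z := by
    have h1 : HasDerivAt (fun y : ℂ => y * conj e) (1 * conj e) z :=
      (hasDerivAt_id z).mul_const _
    have h2 := (Complex.hasDerivAt_log hz).comp z h1
    have h3 := (h2.div_const 2).cexp
    exact h3
  set c : ℝ := Real.sqrt (2 / Real.pi) with hc
  have hdf : HasFDerivAt f ((ContinuousLinearMap.toSpanSingleton ℂ f' : ℂ →L[ℂ] ℂ).restrictScalars ℝ) z :=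
    hd.hasFDerivAt.restrictScalars ℝ
  have hw : HasFDerivAt (ctip e) (c • (Complex.imCLM.comp
      ((ContinuousLinearMap.toSpanSingleton ℂ f' : ℂ →L[ℂ] ℂ).restrictScalars ℝ))) z := by
    have h2 : HasFDerivAt (fun y => c * (f y).im) (c • (Complex.imCLM.comp
        ((ContinuousLinearMap.toSpanSingleton ℂ f' : ℂ →L[ℂ] ℂ).restrictScalars ℝ))) z := by
      have := (Complex.imCLM.hasFDerivAt.comp z hdf).const_mul c
      exact this
    refine h2.congr_of_eventuallyEq ?_
    filter_upwards [isOpen_compl_singleton.mem_nhds hz0] with y hy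
    exact b6_ctip_eq he hy
  have hv : HasFDerivAt (fun y => Real.sqrt (1 / Real.pi * (‖y‖ + (y * conj e).re)))
      (c • (Complex.reCLM.comp
        ((ContinuousLinearMap.toSpanSingleton ℂ f' : ℂ →L[ℂ] ℂ).restrictScalars ℝ))) z := by
    have h2 : HasFDerivAt (fun y => c * (f y).re) (c • (Complex.reCLM.comp
        ((ContinuousLinearMap.toSpanSingleton ℂ f' : ℂ →L[ℂ] ℂ).restrictScalars ℝ))) z := by
      have := (Complex.reCLM.hasFDerivAt.comp z hdf).const_mul c
      exact this
    refine h2.congr_of_eventuallyEq ?_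
    filter_upwards [isOpen_compl_singleton.mem_nhds hz0] with y hy
    have hye : y * conj e ≠ 0 := by
      refine mul_ne_zero hy ?_
      rw [Ne, map_eq_zero]
      intro h
      rw [h, norm_zero] at he
      exact zero_ne_one he
    have hn : ‖y * conj e‖ = ‖y‖ := by rw [norm_mul, RCLike.norm_conj, he, mul_one]
    have := dg_sqrt_re hye
    rw [hn] at this
    exact this
  refine ⟨c * conj f', ?_, hw.differentiableAt, ?_⟩
  · convert hv using 1
    ext h
    rw [ilin_apply, Complex.inner]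
    simp
    ring
  · rw [cgr_of hw]
    unfold cgrL
    apply Complex.ext
    · simp
    · simp

theorem dg_tip_form {u : ℂ → ℝ} {K : Set ℂ} {v : ℂ → ℝ} (hK : IsClosed K)
    (hu : ContDiffOn ℝ 1 u Kᶜ) (hcj : CJ univ K v (tgr u K)) {w : ℂ} {ε : ℝ} (hw : ‖w‖ = 1)
    (hKw : K = {z | ∃ t : ℝ, 0 ≤ t ∧ z = t * w})
    (hv : ∀ z : ℂ, v z = ε * Real.sqrt (1 / Real.pi * (‖z‖ - (z * conj w).re))) :
    ∃ m : ℝ, ∀ z, z ∉ K → u z = m + (-ε) * ctip (-w) z := by
  have hne : ‖-w‖ = 1 := by rw [norm_neg, hw]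
  have hww : w * conj w = 1 := by
    rw [Complex.mul_conj, Complex.normSq_eq_norm_sq, hw]; norm_num
  have hslit : ∀ z, z ∉ K → z * conj (-w) ∈ Complex.slitPlane := by
    intro z hz
    by_contra hcon
    apply hz
    rw [Complex.mem_slitPlane_iff, not_or, not_lt, not_ne_iff] at hcon
    obtain ⟨h1, h2⟩ := hcon
    rw [hKw]
    refine ⟨(z * conj w).re, ?_, ?_⟩
    · rw [map_neg, mul_neg, Complex.neg_re] at h1
      linarith
    · rw [map_neg, mul_neg, Complex.neg_im, neg_eq_zero] at h2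
      have h3 : ((z * conj w).re : ℂ) = z * conj w := Complex.ext (by simp) (by simp [h2])
      rw [h3, mul_assoc, mul_comm (conj w), hww, mul_one]
  have hud : ∀ z, z ∉ K → DifferentiableAt ℝ u z := fun z hz =>
    (hu.contDiffAt (hK.isOpen_compl.mem_nhds hz)).differentiableAt one_ne_zero
  have hgrad : ∀ z, z ∉ K → DifferentiableAt ℝ (ctip (-w)) z ∧
      cgr u z = -ε * cgr (ctip (-w)) z := by
    intro z hz
    obtain ⟨L, hL, hd, hcL⟩ := dg_ctip_grad hne (hslit z hz)
    refine ⟨hd, ?_⟩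
    have h1 := hcj.grad z ⟨mem_univ _, hz⟩
    have h2 : HasFDerivAt v (ε • ilin L) z := by
      refine (hL.const_mul ε).congr_of_eventuallyEq (Eventually.of_forall fun y => ?_)
      simp only
      rw [hv, map_neg, mul_neg, Complex.neg_re, ← sub_eq_add_neg]
    have h3 := h1.unique h2
    rw [tgr_of_notMem hz] at h3
    have h4 : Complex.I * cgr u z = ε * L := by
      have e1 : ilin (Complex.I * cgr u z) 1 = (ε • ilin L) 1 := by rw [h3]
      have e2 : ilin (Complex.I * cgr u z) Complex.I = (ε • ilin L) Complex.I := by rw [h3]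
      rw [ilin_apply, smul_apply, ilin_apply] at e1 e2
      rw [Complex.inner, Complex.inner] at e1 e2
      apply Complex.ext
      · simpa using e1
      · simpa using e2
    rw [hcL]
    have h5 : cgr u z = -Complex.I * (Complex.I * cgr u z) := by
      rw [← mul_assoc, neg_mul, Complex.I_mul_I, neg_neg, one_mul]
    rw [h5, h4]
    ring
  set U : ℂ → ℝ := fun y => u y + ε * ctip (-w) y with hU
  have hUd : ∀ z, z ∉ K → DifferentiableAt ℝ U z := fun z hz =>
    (hud z hz).add ((hgrad z hz).1.const_mul ε)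
  have hU0 : ∀ z, z ∉ K → fderiv ℝ U z = 0 := by
    intro z hz
    have h1 : cgr U z = 0 := by
      rw [hU, cgr_add (hud z hz) ((hgrad z hz).1.const_mul ε), cgr_const_mul, (hgrad z hz).2]
      ring
    have h2 := cgr_norm U z
    rw [h1, norm_zero] at h2
    exact norm_eq_zero.1 h2.symm
  have hpre : IsPreconnected (Kᶜ : Set ℂ) := by
    rw [hKw]
    exact tip_compl_preconnected hw
  have hmem : -w ∉ K := by
    rw [hKw]
    rintro ⟨t, ht, h1⟩
    have h2 : ((t + 1 : ℝ) : ℂ) * w = 0 := by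
      push_cast
      linear_combination -h1
    have hw0 : w ≠ 0 := by
      intro h
      rw [h, norm_zero] at hw
      exact zero_ne_one hw
    have h3 := (mul_eq_zero.1 h2).resolve_right hw0
    have h4 : t + 1 = 0 := by exact_mod_cast h3
    linarith
  refine ⟨U (-w), fun z hz => ?_⟩
  have h1 := hK.isOpen_compl.is_const_of_fderiv_eq_zero (𝕜 := ℝ) hpre
    (fun y hy => (hUd y hy).differentiableWithinAt) (fun y hy => hU0 y hy) hz hmem
  rw [← h1, hU]
  ring

end Pool.Agent.MP099f24
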