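import Mathlib
import Pool.Agent.Lib.MP_099f24_an.GA.Chart
import Pool.Agent.Lib.MP_099f24_an.GA.Jordan
import Pool.Agent.Lib.MP_099f24_an.GA.Sub
import Pool.Agent.Lib.MP_099f24_an.GA.Att

/-!
# Two exits: a network without tips and without regions meets every circle around each of its
points at least twice
-/

namespace Pool.Agent.MP099f24

open MeasureTheory Filter Topology Set Metric
open scoped ENNReal ContDiff

theorem dg_sep_core {L : Set ℂ} (hL : IsCompact L) (hLc : IsPreconnected L) {p q : ℂ}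
    (hq : q ∈ L) (hp : p ∈ L) (hqp : q ≠ p) {u w : Set ℂ} (hu : IsOpen u) (hw : IsOpen w)
    (hsub : L \ {p} ⊆ u ∪ w) (hune : ((L \ {p}) ∩ u).Nonempty)
    (hdis : ¬ ((L \ {p}) ∩ (u ∩ w)).Nonempty) (hqw : q ∈ w) :
    ∃ U : Set ℂ, U ⊆ L ∧ U.Nonempty ∧ p ∉ U ∧ q ∉ U ∧ IsClosed (insert p U) ∧
      (∀ B, IsPreconnected B → B ⊆ L → p ∉ B → (B ∩ U).Nonempty → B ⊆ U) ∧
      IsPreconnected (L \ U) := by
  have hd : ∀ z, z ∈ L → z ≠ p → z ∈ u → z ∈ w → False := fun z h1 h2 h3 h4 =>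
    hdis ⟨z, ⟨h1, h2⟩, h3, h4⟩
  have hcl : IsClosed (insert p ((L \ {p}) ∩ u)) := by
    have : insert p ((L \ {p}) ∩ u) = L ∩ (w \ {p})ᶜ := by
      ext z
      simp only [mem_insert_iff, mem_inter_iff, Set.mem_sdiff, mem_singleton_iff, mem_compl_iff,
        not_and, not_not]
      constructor
      · rintro (rfl | ⟨⟨h1, h2⟩, h3⟩)
        · exact ⟨hp, fun _ => rfl⟩
        · exact ⟨h1, fun h4 => (hd z h1 h2 h3 h4).elim⟩
      · rintro ⟨h1, h2⟩
        by_cases hz : z = p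
        · exact Or.inl hz
        · right
          refine ⟨⟨h1, hz⟩, ?_⟩
          rcases hsub ⟨h1, hz⟩ with h | h
          · exact h
          · exact absurd (h2 h) hz
    rw [this]
    exact hL.isClosed.inter (hw.sdiff isClosed_singleton).isClosed_compl
  have hMcl : IsClosed (L \ ((L \ {p}) ∩ u)) := by
    have : L \ ((L \ {p}) ∩ u) = L ∩ (u \ {p})ᶜ := by
      ext z
      simp only [mem_inter_iff, Set.mem_sdiff, mem_singleton_iff, mem_compl_iff]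
      tauto
    rw [this]
    exact hL.isClosed.inter (hu.sdiff isClosed_singleton).isClosed_compl
  refine ⟨(L \ {p}) ∩ u, fun z hz => hz.1.1, hune, fun h => h.1.2 rfl,
    fun h => hd q hq hqp h.2 hqw, hcl, ?_, ?_⟩
  · intro B hB hBL hpB hne z hz
    have hBs : B ⊆ u ∪ w := fun y hy => hsub ⟨hBL hy, fun h => hpB (h ▸ hy)⟩
    refine ⟨⟨hBL hz, fun h => hpB (h ▸ hz)⟩, ?_⟩
    by_contra hzu
    obtain ⟨y, hy, hyu, hyw⟩ := hB u w hu hw hBs (hne.mono fun y hy => ⟨hy.1, hy.2.2⟩)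
      ⟨z, hz, (hBs hz).resolve_left hzu⟩
    exact hd y (hBL hy) (fun h => hpB (h ▸ hy)) hyu hyw
  · rw [isPreconnected_closed_iff]
    have key : ∀ t t' : Set ℂ, IsClosed t → IsClosed t' → L \ ((L \ {p}) ∩ u) ⊆ t ∪ t' →
        ((L \ ((L \ {p}) ∩ u)) ∩ t').Nonempty → p ∈ t →
        ((L \ ((L \ {p}) ∩ u)) ∩ (t ∩ t')).Nonempty := by
      intro t t' ht ht' hcov hne hpt
      by_contra hcon
      have h1 := (isPreconnected_closed_iff.1 hLc)
        (insert p ((L \ {p}) ∩ u) ∪ (L \ ((L \ {p}) ∩ u)) ∩ t) ((L \ ((L \ {p}) ∩ u)) ∩ t')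
        (hcl.union (hMcl.inter ht)) (hMcl.inter ht') ?_ ⟨p, hp, Or.inl (mem_insert _ _)⟩ ?_
      · obtain ⟨z, hzL, hz1, hz2⟩ := h1
        rcases hz1 with (rfl | hz1) | hz1
        · exact hcon ⟨z, hz2.1, hpt, hz2.2⟩
        · exact hz2.1.2 hz1
        · exact hcon ⟨z, hz2.1, hz1.2, hz2.2⟩
      · intro z hz
        by_cases hzU : z ∈ (L \ {p}) ∩ u
        · exact Or.inl (Or.inl (mem_insert_of_mem _ hzU))
        · rcases hcov ⟨hz, hzU⟩ with h | h
          · exact Or.inl (Or.inr ⟨⟨hz, hzU⟩, h⟩)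
          · exact Or.inr ⟨⟨hz, hzU⟩, h⟩
      · obtain ⟨z, hz1, hz2⟩ := hne
        exact ⟨z, hz1.1, hz1, hz2⟩
    intro t t' ht ht' hcov hne hne'
    have hpM : p ∈ L \ ((L \ {p}) ∩ u) := ⟨hp, fun h => h.1.2 rfl⟩
    rcases hcov hpM with h | h
    · exact key t t' ht ht' hcov hne' h
    · have := key t' t ht' ht (by rwa [union_comm]) hne h
      rwa [inter_comm t' t] at this

theorem dg_sep {L : Set ℂ} (hL : IsCompact L) (hLc : IsPreconnected L) {p q : ℂ}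
    (hq : q ∈ L) (hp : p ∈ L) (hqp : q ≠ p) (hcut : ¬ IsPreconnected (L \ {p})) :
    ∃ U : Set ℂ, U ⊆ L ∧ U.Nonempty ∧ p ∉ U ∧ q ∉ U ∧ IsClosed (insert p U) ∧
      (∀ B, IsPreconnected B → B ⊆ L → p ∉ B → (B ∩ U).Nonempty → B ⊆ U) ∧
      IsPreconnected (L \ U) := by
  unfold IsPreconnected at hcut
  push Not at hcut
  obtain ⟨u, w, hu, hw, hsub, hune, hwne, hdis⟩ := hcut
  rcases hsub ⟨hq, hqp⟩ with h | h
  · refine dg_sep_core hL hLc hq hp hqp hw hu (by rwa [union_comm]) hwne ?_ h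
    rw [inter_comm w u, hdis]
    exact Set.not_nonempty_empty
  · refine dg_sep_core hL hLc hq hp hqp hu hw hsub hune ?_ h
    rw [hdis]
    exact Set.not_nonempty_empty

/-- A compact connected set cannot be cut by all its points but one. -/
theorem dg_noncut {L R : Set ℂ} (hL : IsCompact L) (hLc : IsPreconnected L) {q : ℂ} (hq : q ∈ L)
    (hR : R ⊆ L) (hqR : q ∉ R) (hcut : ∀ p ∈ R, ¬ IsPreconnected (L \ {p}))
    (hv : ∀ v ∈ L, v ≠ q → v ∉ R → ∃ (B₀ B₁ : Set ℂ) (y₀ y₁ : ℂ), IsPreconnected B₀ ∧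
      IsPreconnected B₁ ∧ B₀ ⊆ L ∧ B₁ ⊆ L ∧ v ∈ B₀ ∧ v ∈ B₁ ∧ y₀ ∈ B₀ ∧ y₀ ∈ R ∧ y₁ ∈ B₁ ∧
      y₁ ∈ R ∧ ∀ z, z ∈ B₀ → z ∈ B₁ → z = v) : L ⊆ {q} := by
  by_contra hcon
  rw [Set.not_subset] at hcon
  obtain ⟨z₀, hz₀L, hz₀q⟩ := hcon
  have hRne : R.Nonempty := by
    by_cases h : z₀ ∈ R
    · exact ⟨z₀, h⟩
    · obtain ⟨B₀, B₁, y₀, y₁, _, _, _, _, _, _, _, h1, _⟩ := hv z₀ hz₀L hz₀q h
      exact ⟨y₀, h1⟩
  have hex : ∀ p ∈ R, ∃ U : Set ℂ, U ⊆ L ∧ U.Nonempty ∧ p ∉ U ∧ q ∉ U ∧ IsClosed (insert p U) ∧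
      (∀ B, IsPreconnected B → B ⊆ L → p ∉ B → (B ∩ U).Nonempty → B ⊆ U) ∧
      IsPreconnected (L \ U) := fun p hp =>
    dg_sep hL hLc hq (hR hp) (fun h => hqR (h ▸ hp)) (hcut p hp)
  choose! U hUL hUne hpU hqU hUcl hUB hUM using hex
  -- nestedness
  have hnest : ∀ p ∈ R, ∀ p' ∈ R, p' ∈ U p → U p' ⊆ U p ∧ p ∉ U p' := by
    intro p hp p' hp' hpp'
    have h1 : ¬ ((L \ U p) ∩ U p').Nonempty := by
      intro h2
      have h3 := hUB p' hp' (L \ U p) (hUM p hp) Set.sdiff_subset (fun h => h.2 hpp') h2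
      exact hqU p' hp' (h3 ⟨hq, hqU p hp⟩)
    constructor
    · intro z hz
      by_contra hzp
      exact h1 ⟨z, ⟨hUL p' hp' hz, hzp⟩, hz⟩
    · intro h2
      exact h1 ⟨p, ⟨hR hp, hpU p hp⟩, h2⟩
  -- the alternative at an exceptional point
  have halt : ∀ v ∈ L, v ≠ q → v ∉ R → ∃ y₀ ∈ R, ∃ y₁ ∈ R, ∀ p ∈ R, v ∈ U p →
      y₀ ∈ U p ∨ y₁ ∈ U p := by
    intro v hvL hvq hvR
    obtain ⟨B₀, B₁, y₀, y₁, hB₀, hB₁, hB₀L, hB₁L, hv₀, hv₁, hy₀, hy₀R, hy₁, hy₁R, hB⟩ :=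
      hv v hvL hvq hvR
    refine ⟨y₀, hy₀R, y₁, hy₁R, fun p hp hvp => ?_⟩
    by_cases h : p ∈ B₀
    · right
      refine hUB p hp B₁ hB₁ hB₁L (fun h' => hvR ?_) ⟨v, hv₁, hvp⟩ hy₁
      rw [← hB p h h']
      exact hp
    · left
      exact hUB p hp B₀ hB₀ hB₀L h ⟨v, hv₀, hvp⟩ hy₀
  -- a point of `R` in each `U p`
  have hmem : ∀ p ∈ R, ∃ y ∈ R, y ∈ U p := by
    intro p hp
    obtain ⟨z, hz⟩ := hUne p hp
    by_cases h : z ∈ R
    · exact ⟨z, h, hz⟩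
    · obtain ⟨y₀, hy₀, y₁, hy₁, h01⟩ := halt z (hUL p hp hz) (fun h => hqU p hp (h ▸ hz)) h
      rcases h01 p hp hz with h2 | h2
      · exact ⟨y₀, hy₀, h2⟩
      · exact ⟨y₁, hy₁, h2⟩
  -- Zorn
  have htrans : ∀ {a b c : R}, (a = b ∨ (b : ℂ) ∈ U a) → (b = c ∨ (c : ℂ) ∈ U b) →
      (a = c ∨ (c : ℂ) ∈ U a) := by
    intro a b c h1 h2
    rcases h1 with rfl | h1
    · exact h2
    · rcases h2 with rfl | h2
      · exact Or.inr h1
      · exact Or.inr ((hnest a a.2 b b.2 h1).1 h2)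
  have hchain : ∀ C : Set R, IsChain (fun a b : R => a = b ∨ (b : ℂ) ∈ U a) C →
      ∃ ub : R, ∀ a ∈ C, a = ub ∨ (ub : ℂ) ∈ U a := by
    intro C hC
    have : Std.Refl (fun a b : R => a = b ∨ (b : ℂ) ∈ U a) := ⟨fun _ => Or.inl rfl⟩
    rcases C.eq_empty_or_nonempty with rfl | hCne
    · obtain ⟨y, hy⟩ := hRne
      exact ⟨⟨y, hy⟩, fun a ha => absurd ha (Set.notMem_empty a)⟩
    have hne : Nonempty C := hCne.to_subtype
    have hint : (⋂ a : C, insert ((a : R) : ℂ) (U (a : R))).Nonempty := by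
      refine IsCompact.nonempty_iInter_of_directed_nonempty_isCompact_isClosed _ ?_ ?_ ?_ ?_
      · intro a b
        rcases hC.total a.2 b.2 with h | h
        · refine ⟨b, ?_, subset_rfl⟩
          rcases h with h | h
          · simp only [h]
            exact subset_rfl
          · exact insert_subset (mem_insert_of_mem _ h)
              ((hnest _ (a : R).2 _ (b : R).2 h).1.trans (subset_insert _ _))
        · refine ⟨a, subset_rfl, ?_⟩
          rcases h with h | h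
          · simp only [h]
            exact subset_rfl
          · exact insert_subset (mem_insert_of_mem _ h)
              ((hnest _ (b : R).2 _ (a : R).2 h).1.trans (subset_insert _ _))
      · intro a
        exact ⟨_, mem_insert _ _⟩
      · intro a
        exact hL.of_isClosed_subset (hUcl _ (a : R).2)
          (insert_subset (hR (a : R).2) (hUL _ (a : R).2))
      · intro a
        exact hUcl _ (a : R).2
    obtain ⟨z, hz⟩ := hint
    rw [mem_iInter] at hz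
    by_cases hzR : z ∈ R
    · refine ⟨⟨z, hzR⟩, fun a ha => ?_⟩
      rcases hz ⟨a, ha⟩ with h | h
      · exact Or.inl (Subtype.ext h.symm)
      · exact Or.inr h
    · have hzU : ∀ a ∈ C, z ∈ U (a : ℂ) := by
        intro a ha
        rcases hz ⟨a, ha⟩ with h | h
        · exact absurd (h ▸ a.2) hzR
        · exact h
      obtain ⟨a₁, ha₁⟩ := hCne
      obtain ⟨y₀, hy₀, y₁, hy₁, h01⟩ := halt z (hUL a₁ a₁.2 (hzU a₁ ha₁))
        (fun h => hqU a₁ a₁.2 (h ▸ hzU a₁ ha₁)) hzR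
      by_cases hall : ∀ a ∈ C, y₀ ∈ U (a : ℂ)
      · exact ⟨⟨y₀, hy₀⟩, fun a ha => Or.inr (hall a ha)⟩
      · push Not at hall
        obtain ⟨a₀, ha₀, hn⟩ := hall
        refine ⟨⟨y₁, hy₁⟩, fun a ha => Or.inr ?_⟩
        have h₀ : y₁ ∈ U (a₀ : ℂ) := (h01 a₀ a₀.2 (hzU a₀ ha₀)).resolve_left hn
        rcases hC.total ha ha₀ with h | h
        · rcases h with rfl | h
          · exact h₀
          · exact (hnest a a.2 a₀ a₀.2 h).1 h₀
        · rcases h with rfl | h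
          · exact h₀
          · refine (h01 a a.2 (hzU a ha)).resolve_left (fun h2 => hn ?_)
            exact (hnest a₀ a₀.2 a a.2 h).1 h2
  obtain ⟨m, hm⟩ := exists_maximal_of_chains_bounded
    (r := fun a b : R => a = b ∨ (b : ℂ) ∈ U a) hchain htrans
  obtain ⟨y, hy, hym⟩ := hmem m m.2
  have h1 := hm ⟨y, hy⟩ (Or.inr hym)
  rcases h1 with h1 | h1
  · have h2 : y = m := congrArg Subtype.val h1
    exact hpU m m.2 (h2 ▸ hym)
  · exact (hnest m m.2 y hy hym).2 h1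

/-- near a regular point inside the disc, `K` is contained in the component of `K ∩ disc` -/
theorem dg_reg_near {K : Set ℂ} {x : ℂ} {r : ℝ} {p : ℂ} (hreg : IsRegPt K p)
    (hp : p ∈ connectedComponentIn (K ∩ closedBall x r) x) (hpr : p ∈ ball x r) :
    (∃ U ∈ 𝓝 p, K ∩ U ⊆ connectedComponentIn (K ∩ closedBall x r) x) ∧
      ∃ z ∈ connectedComponentIn (K ∩ closedBall x r) x, z ≠ p := by
  obtain ⟨δ, σ, D, hch⟩ := ga_chart hreg
  have hδ := hch.pos
  have hcont : ContinuousOn σ (Ioo (-δ) δ) := hch.diff.continuousOn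
  have h0 : (0 : ℝ) ∈ Ioo (-δ) δ := ⟨by linarith, hδ⟩
  have hca : ContinuousAt σ 0 := hcont.continuousAt (Ioo_mem_nhds h0.1 h0.2)
  have hev : ∀ᶠ t in 𝓝 (0 : ℝ), σ t ∈ ball x r ∧ t ∈ Ioo (-δ) δ := by
    refine (hca.eventually ?_).and (Ioo_mem_nhds h0.1 h0.2)
    rw [hch.zero]
    exact isOpen_ball.mem_nhds hpr
  obtain ⟨η, hη, hball⟩ := Metric.eventually_nhds_iff.1 hev
  have hIoo : ∀ t ∈ Ioo (-η) η, σ t ∈ ball x r ∧ t ∈ Ioo (-δ) δ := fun t ht =>
    hball (by rw [Real.dist_eq, sub_zero, abs_lt]; exact ⟨by linarith [ht.1], ht.2⟩)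
  have hσK : ∀ t ∈ Ioo (-η) η, σ t ∈ K := fun t ht => by
    have : σ t ∈ K ∩ D := by
      rw [← hch.image]
      exact mem_image_of_mem _ (hIoo t ht).2
    exact this.1
  have hη0 : (0 : ℝ) ∈ Ioo (-η) η := ⟨by linarith, hη⟩
  have hsub : σ '' Ioo (-η) η ⊆ connectedComponentIn (K ∩ closedBall x r) x := by
    rw [connectedComponentIn_eq hp]
    refine IsPreconnected.subset_connectedComponentIn
      (isPreconnected_Ioo.image _ (hcont.mono fun t ht => (hIoo t ht).2)) ?_ ?_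
    · rw [← hch.zero]
      exact mem_image_of_mem _ hη0
    · rintro _ ⟨t, ht, rfl⟩
      exact ⟨hσK t ht, ball_subset_closedBall (hIoo t ht).1⟩
  refine ⟨?_, σ (η / 2), hsub (mem_image_of_mem _ ⟨by linarith, by linarith⟩), ?_⟩
  · obtain ⟨U, hU, hsmall⟩ := hch.small η hη
    refine ⟨U ∩ D, inter_mem hU (hch.isOpen.mem_nhds hch.mem), ?_⟩
    rintro z ⟨hzK, hzU, hzD⟩
    have h3 : z ∈ K ∩ D := ⟨hzK, hzD⟩
    rw [← hch.image] at h3
    obtain ⟨t, ht, rfl⟩ := h3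
    have h4 := hsmall t ht hzU
    rw [abs_lt] at h4
    exact hsub (mem_image_of_mem _ h4)
  · intro he
    have h5 : η / 2 ∈ Ioo (-η) η := ⟨by linarith, by linarith⟩
    have := hch.inj (hIoo _ h5).2 h0 (by rw [he, hch.zero])
    linarith

/-- a branch at a star point inside the disc -/
theorem dg_branch {K : Set ℂ} {x : ℂ} {r : ℝ} {v : ℂ} {n : ℕ} {δ : ℝ} {σ : Fin n → ℝ → ℂ}
    (hs : IsStar K v n δ σ) (hvK : v ∈ connectedComponentIn (K ∩ closedBall x r) x)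
    {ε : ℝ} (hε : 0 < ε) (hεδ : ε < δ) (hball : closedBall v ε ⊆ ball x r) (k : Fin n) :
    IsPreconnected (insert v (σ k '' Ioc 0 ε)) ∧
      insert v (σ k '' Ioc 0 ε) ⊆ connectedComponentIn (K ∩ closedBall x r) x := by
  have hmem : ∀ s ∈ Ioc 0 ε, s ∈ Ioo 0 δ := fun s hs' => ⟨hs'.1, hs'.2.trans_lt hεδ⟩
  have hten : Tendsto (σ k) (𝓝[>] 0) (𝓝 v) := by
    rw [tendsto_iff_norm_sub_tendsto_zero]
    have h1 : Tendsto (fun s : ℝ => s) (𝓝[>] 0) (𝓝 0) := tendsto_id.mono_left nhdsWithin_le_nhds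
    refine h1.congr' ?_
    filter_upwards [Ioo_mem_nhdsGT hs.pos] with s hs' using (hs.norm_sub k s hs').symm
  have hpre : IsPreconnected (insert v (σ k '' Ioc 0 ε)) := by
    refine IsPreconnected.subset_closure
      (isPreconnected_Ioc.image _ ((hs.cont k).mono hmem))
      (subset_insert _ _) (insert_subset ?_ subset_closure)
    refine mem_closure_of_tendsto hten ?_
    filter_upwards [Ioc_mem_nhdsGT hε] with s hs' using mem_image_of_mem _ hs'
  refine ⟨hpre, ?_⟩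
  rw [connectedComponentIn_eq hvK]
  refine hpre.subset_connectedComponentIn (mem_insert _ _) ?_
  refine insert_subset (connectedComponentIn_subset _ _ hvK) ?_
  rintro _ ⟨s, hs', rfl⟩
  have h1 := hs.norm_sub k s (hmem s hs')
  refine ⟨?_, ball_subset_closedBall (hball ?_)⟩
  · refine (hs.mem_iff _ ?_ ?_).2 ⟨k, ?_⟩
    · rw [h1]; exact hs'.1
    · rw [h1]; exact (hmem s hs').2
    · rw [h1]
  · rw [mem_closedBall, dist_eq_norm, h1]
    exact hs'.2

theorem ga_two_exits {K : Set ℂ} (hK : IsClosed K) (hloc : ∀ p ∈ K, IsRegPt K p ∨ IsTriple K p)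
    (hN : NoRegion univ K) {x : ℂ} (hx : x ∈ K) {r : ℝ} (hr : 0 < r) :
    ∃ p ∈ K ∩ sphere x r, ∃ q ∈ K ∩ sphere x r, p ≠ q := by
  by_contra hcon
  push Not at hcon
  set L := connectedComponentIn (K ∩ closedBall x r) x with hLdef
  have hxm : x ∈ K ∩ closedBall x r := ⟨hx, mem_closedBall_self hr.le⟩
  have hxL : x ∈ L := mem_connectedComponentIn hxm
  have hLsub : L ⊆ K ∩ closedBall x r := connectedComponentIn_subset _ _
  have hcomp : IsCompact (K ∩ closedBall x r) := (isCompact_closedBall x r).inter_left hK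
  have hLcl : IsClosed L := by
    refine isClosed_of_closure_subset ?_
    have h1 : closure L ⊆ K ∩ closedBall x r := closure_minimal hLsub hcomp.isClosed
    exact IsPreconnected.subset_connectedComponentIn
      (isPreconnected_connectedComponentIn.closure) (subset_closure hxL) h1
  have hLc : IsCompact L := hcomp.of_isClosed_subset hLcl hLsub
  have hLp : IsPreconnected L := isPreconnected_connectedComponentIn
  -- a star point of `L` in the open disc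
  have hstar : ∀ v ∈ L, v ∈ ball x r → IsTriple K v → ∀ q : ℂ, v ≠ q →
      ∃ (B₀ B₁ : Set ℂ) (y₀ y₁ : ℂ), IsPreconnected B₀ ∧
      IsPreconnected B₁ ∧ B₀ ⊆ L ∧ B₁ ⊆ L ∧ v ∈ B₀ ∧ v ∈ B₁ ∧ y₀ ∈ B₀ ∧
      (y₀ ∈ L ∧ y₀ ∈ ball x r ∧ IsRegPt K y₀ ∧ y₀ ≠ q) ∧ y₁ ∈ B₁ ∧
      (y₁ ∈ L ∧ y₁ ∈ ball x r ∧ IsRegPt K y₁ ∧ y₁ ≠ q) ∧ (∀ z, z ∈ B₀ → z ∈ B₁ → z = v) ∧
      y₀ ≠ v := by
    rintro v hvL hvr ⟨δ, σ, τ, hs, _, _⟩ q hvq
    obtain ⟨ρ, hρ, hρr⟩ := Metric.isOpen_iff.1 isOpen_ball v hvr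
    have hd : 0 < dist q v := dist_pos.2 (Ne.symm hvq)
    obtain ⟨ε, hε0, hε1⟩ := exists_between (lt_min hd (lt_min hρ hs.pos))
    have hεd : ε < dist q v := hε1.trans_le (min_le_left _ _)
    have hερ : ε < ρ := hε1.trans_le ((min_le_right _ _).trans (min_le_left _ _))
    have hεδ : ε < δ := hε1.trans_le ((min_le_right _ _).trans (min_le_right _ _))
    have hball : closedBall v ε ⊆ ball x r := (closedBall_subset_ball hερ).trans hρr
    have hεm : ε ∈ Ioc 0 ε := ⟨hε0, le_rfl⟩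
    have hεo : ε ∈ Ioo 0 δ := ⟨hε0, hεδ⟩
    have hy : ∀ k, σ k ε ∈ L ∧ σ k ε ∈ ball x r ∧ IsRegPt K (σ k ε) ∧ σ k ε ≠ q := by
      intro k
      have hn := hs.norm_sub k ε hεo
      refine ⟨(dg_branch hs hvL hε0 hεδ hball k).2 (mem_insert_of_mem _ (mem_image_of_mem _ hεm)),
        hball ?_, (hs.branch k).2 (mem_image_of_mem _ hεo), ?_⟩
      · rw [mem_closedBall, dist_eq_norm, hn]
      · intro he
        rw [he, ← dist_eq_norm] at hn
        linarith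
    refine ⟨insert v (σ 0 '' Ioc 0 ε), insert v (σ 1 '' Ioc 0 ε), σ 0 ε, σ 1 ε,
      (dg_branch hs hvL hε0 hεδ hball 0).1, (dg_branch hs hvL hε0 hεδ hball 1).1,
      (dg_branch hs hvL hε0 hεδ hball 0).2, (dg_branch hs hvL hε0 hεδ hball 1).2,
      mem_insert _ _, mem_insert _ _, mem_insert_of_mem _ (mem_image_of_mem _ hεm), hy 0,
      mem_insert_of_mem _ (mem_image_of_mem _ hεm), hy 1, ?_, ?_⟩
    · rintro z (rfl | ⟨s, hs1, rfl⟩) (h | ⟨s', hs2, h⟩)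
      · rfl
      · rfl
      · exact h
      · exfalso
        have e1 := hs.norm_sub 0 s ⟨hs1.1, hs1.2.trans_lt hεδ⟩
        have e2 := hs.norm_sub 1 s' ⟨hs2.1, hs2.2.trans_lt hεδ⟩
        rw [h, e1] at e2
        subst e2
        exact absurd (hs.inj 0 1 _ ⟨hs1.1, hs1.2.trans_lt hεδ⟩ h.symm) (by decide)
    · intro he
      have := hs.norm_sub 0 ε hεo
      rw [he, sub_self, norm_zero] at this
      linarith
  -- the exceptional point
  obtain ⟨q, hqL, hqb, hqx⟩ : ∃ q ∈ L, (∀ z ∈ L, z ≠ q → z ∈ ball x r) ∧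
      (q = x ∨ q ∈ sphere x r) := by
    by_cases hS : ∃ q ∈ L, q ∈ sphere x r
    · obtain ⟨q, hqL, hqS⟩ := hS
      refine ⟨q, hqL, fun z hz hzq => ?_, Or.inr hqS⟩
      have h1 := (hLsub hz).2
      rw [mem_closedBall] at h1
      rw [mem_ball]
      refine lt_of_le_of_ne h1 (fun he => hzq ?_)
      exact hcon z ⟨(hLsub hz).1, he⟩ q ⟨(hLsub hqL).1, hqS⟩
    · push Not at hS
      refine ⟨x, hxL, fun z hz _ => ?_, Or.inl rfl⟩
      have h1 := (hLsub hz).2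
      rw [mem_closedBall] at h1
      rw [mem_ball]
      exact lt_of_le_of_ne h1 (fun he => hS z hz he)
  have hLq : L ⊆ {q} := by
    refine dg_noncut (R := {z | z ∈ L ∧ z ∈ ball x r ∧ IsRegPt K z ∧ z ≠ q}) hLc hLp hqL
      (fun z hz => hz.1) (fun h => h.2.2.2 rfl) ?_ ?_
    · rintro p ⟨hpL, hpr, hreg, hpq⟩ hpre
      exact ga_noloop (subset_univ K) noHoles_univ hN hLc (fun z hz => (hLsub hz).1) hreg hpL
        (dg_reg_near hreg hpL hpr).1 hpre
    · intro v hvL hvq hvR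
      have hvr := hqb v hvL hvq
      have hvt : IsTriple K v := (hloc v (hLsub hvL).1).resolve_left
        (fun hreg => hvR ⟨hvL, hvr, hreg, hvq⟩)
      obtain ⟨B₀, B₁, y₀, y₁, h1, h2, h3, h4, h5, h6, h7, h8, h9, h10, h11, _⟩ :=
        hstar v hvL hvr hvt q hvq
      exact ⟨B₀, B₁, y₀, y₁, h1, h2, h3, h4, h5, h6, h7, h8, h9, h10, h11⟩
  have hqx' : q = x := by
    have := hLq hxL
    exact this.symm
  subst hqx'
  have hqr : q ∈ ball q r := mem_ball_self hr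
  rcases hloc q hx with hreg | htr
  · obtain ⟨z, hz, hzq⟩ := (dg_reg_near hreg hqL hqr).2
    exact hzq (hLq hz)
  · obtain ⟨B₀, B₁, y₀, y₁, _, _, _, _, _, _, _, h8, _, _, _, h12⟩ :=
      hstar q hqL hqr htr (q + 1) (by simp)
    exact h12 (hLq h8.1)

end Pool.Agent.MP099f24
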