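import Pool.Agent.Lib.MP_099f24_an.FV.Eilenberg

/-!
# A set which meets every circle twice has length at least `2 r` (module DG4)
-/

set_option autoImplicit false

namespace Pool.Agent.MP099f24

open MeasureTheory Filter Topology Set Metric
open scoped ENNReal

theorem dg_len_two {K : Set ℂ} (hK : IsClosed K) {x : ℂ} {r : ℝ}
    (h2 : ∀ s : ℝ, 0 < s → s < r → ∃ p ∈ K ∩ sphere x s, ∃ q ∈ K ∩ sphere x s, p ≠ q) :
    ENNReal.ofReal (2 * r) ≤ (μH[1] : Measure ℂ) (K ∩ ball x r) := by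
  have hlip : LipschitzWith 1 (fun z : ℂ => dist z x) := LipschitzWith.dist_left x
  obtain ⟨G, hGm, hG1, hG2⟩ := fv_eil_set hlip (hK.measurableSet.inter measurableSet_ball)
  refine le_trans ?_ hG2
  have h3 : ∀ s ∈ Ioo 0 r, (2 : ℝ≥0∞) ≤ G s := by
    intro s hs
    obtain ⟨p, hp, q, hq, hpq⟩ := h2 s hs.1 hs.2
    refine le_trans ?_ (hG1 s)
    have h4 : ({p, q} : Set ℂ) ⊆ K ∩ ball x r ∩ (fun z : ℂ => dist z x) ⁻¹' {s} := by
      intro z hz
      have h5 : z ∈ K ∩ sphere x s := by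
        rcases hz with rfl | hz
        · exact hp
        · rw [mem_singleton_iff] at hz
          rw [hz]
          exact hq
      refine ⟨⟨h5.1, ?_⟩, ?_⟩
      · rw [mem_ball, mem_sphere.1 h5.2]
        exact hs.2
      · exact mem_sphere.1 h5.2
    have h6 : (2 : ℕ∞) ≤ (K ∩ ball x r ∩ (fun z : ℂ => dist z x) ⁻¹' {s}).encard := by
      rw [← encard_pair hpq]
      exact encard_le_encard h4
    exact_mod_cast h6
  calc ENNReal.ofReal (2 * r) = ∫⁻ _ in Ioo 0 r, (2 : ℝ≥0∞) := by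
        rw [setLIntegral_const, Real.volume_Ioo, sub_zero,
          ENNReal.ofReal_mul (by norm_num), ENNReal.ofReal_ofNat]
    _ ≤ ∫⁻ s in Ioo 0 r, G s := setLIntegral_mono' measurableSet_Ioo h3
    _ ≤ ∫⁻ s, G s := setLIntegral_le_lintegral _ _

end Pool.Agent.MP099f24
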