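import Pool.Agent.Lib.MP_099f24_an.DG.Plane
import Pool.Agent.Lib.MP_099f24_an.DG.TipForm
import Pool.Agent.Lib.MP_099f24_an.DG.LimAt
import Pool.Agent.Lib.MP_099f24_an.DG.TwoExits
import Pool.Agent.Lib.MP_099f24_an.DG.TwoLen
import Pool.Agent.Lib.MP_099f24_an.NR.Glue
import Pool.Agent.Lib.MP_099f24_an.B6.Class
import Pool.Agent.Lib.MP_099f24_an.TM.Upp
import Pool.Agent.Lib.MP_099f24_an.SD.Rep

/-!
# De Giorgi's classification of the local minimizers in the plane (module DG4)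
-/

set_option autoImplicit false

namespace Pool.Agent.MP099f24

open MeasureTheory Filter Topology Set Metric
open scoped ENNReal ContDiff ComplexConjugate

/-- a topological minimizer of the plane with empty set is constant -/
theorem dg_empty {u : ℂ → ℝ} {l : ℂ → Set ℂ} (h : TMin univ u l ∅) : ∃ c : ℝ, ∀ x, u x = c := by
  have hs : ContDiff ℝ 1 u := by
    have := h.smooth
    rwa [sdiff_empty, contDiffOn_univ] at this
  have h0 : ∀ x, cgr u x = 0 := by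
    intro x
    by_contra hne
    have hpos : 0 < ‖cgr u x‖ ^ 2 := by positivity
    have h1 := h.grad_bound (a := x) (d := 3 / ‖cgr u x‖ ^ 2) (by positivity) (by simp)
    rw [mul_div_cancel₀ _ hpos.ne'] at h1
    norm_num at h1
  refine ⟨u 0, fun x => ?_⟩
  refine is_const_of_fderiv_eq_zero (𝕜 := ℝ) (hs.differentiable one_ne_zero) (fun y => ?_) x 0
  have h2 := cgr_norm u y
  rw [h0, norm_zero] at h2
  exact norm_eq_zero.1 h2.symm

/-- the explicit form at a point of density `1` of the Dirichlet integral -/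
theorem dg_tip_at {u : ℂ → ℝ} {K : Set ℂ} (h : TMin univ u (fun _ => ∅) K) {x : ℂ} (hx : x ∈ K)
    (hD : ∀ r : ℝ, 0 < r → Dq (tgr u K) x r = r) :
    ∃ (e : ℂ) (m ε : ℝ), ‖e‖ = 1 ∧ (ε = 1 ∨ ε = -1) ∧ K = {z | ∃ t : ℝ, 0 ≤ t ∧ z = x - t * e} ∧
      ∀ z, z ∉ K → u z = m + ε * ctip e (z - x) := by
  obtain ⟨hT, h0⟩ := dg_center_mem h.toTGlob hx
  have hb6 := b6of_resc u K x one_pos
  have hD1 : ∀ r : ℝ, 0 < r → Dq (tgr (fun y => u (x + (1 : ℝ) • y) / Real.sqrt 1)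
      ((fun y : ℂ => x + (1 : ℝ) • y) ⁻¹' K)) 0 r = 1 * r := by
    intro r hr
    have h1 := dg_center_D (b6of u K) x r
    rw [hb6] at h1
    rw [one_mul]
    exact h1.trans (hD r hr)
  set u₁ : ℂ → ℝ := fun y => u (x + (1 : ℝ) • y) / Real.sqrt 1 with hu₁
  set K₁ : Set ℂ := (fun y : ℂ => x + (1 : ℝ) • y) ⁻¹' K with hK₁
  have hmeet : ∀ r : ℝ, 0 < r → (K₁ ∩ sphere 0 r).Nonempty := fun r hr =>
    b6_meet (Q := b6of u₁ K₁) ⟨u₁, K₁, hT, rfl⟩ h0 hr
  obtain ⟨C₀, -, hC⟩ := tglob_cj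
  obtain ⟨v, hv, -⟩ := hC u₁ K₁ hT ⟨0, h0⟩
  have hdata := tt_data hv h0 hmeet one_pos hD1 (fun _ => cj_finite hv (subset_univ _))
    (fun _ => cj_flux hv (subset_univ _))
  obtain ⟨w, ε, hw, hε, hKw, hvw⟩ := hdata.rigid
  have hT' : TMin univ u₁ (clab K₁) K₁ := hT
  have hcl : IsClosed K₁ := hT'.toTConf.isClosed
  have hsm : ContDiffOn ℝ 1 u₁ K₁ᶜ := by
    have := hT'.smooth
    rwa [← compl_eq_univ_sdiff] at this
  obtain ⟨m, hm⟩ := dg_tip_form hcl hsm hv hw hKw hvw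
  refine ⟨-w, m, -ε, by rw [norm_neg, hw], ?_, ?_, ?_⟩
  · rcases hε with rfl | rfl
    · exact Or.inr rfl
    · exact Or.inl (by norm_num)
  · ext z
    have h1 : z ∈ K ↔ z - x ∈ K₁ := by
      rw [hK₁, mem_preimage, one_smul, add_sub_cancel]
    rw [h1, hKw, mem_ofPred_eq, mem_ofPred_eq]
    constructor
    · rintro ⟨t, ht, h2⟩
      exact ⟨t, ht, by linear_combination h2⟩
    · rintro ⟨t, ht, h2⟩
      exact ⟨t, ht, by linear_combination h2⟩
  · intro z hz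
    have h1 : z - x ∉ K₁ := by
      rw [hK₁, mem_preimage, one_smul, add_sub_cancel]
      exact hz
    have h2 := hm (z - x) h1
    rw [← h2, hu₁]
    simp

/-- **De Giorgi's classification**, for `MSMin`. -/
theorem dg_class_ms {u : ℂ → ℝ} {g j : ℂ → ℂ} (h : MSMin univ u g j) :
    (closure (discSet univ u) = ∅ ∧ ∃ c : ℝ, ∀ᵐ x, u x = c) ∨
    ∃ (a e : ℂ) (m ε : ℝ), ‖e‖ = 1 ∧ (ε = 1 ∨ ε = -1) ∧
      closure (discSet univ u) = {z | ∃ t : ℝ, 0 ≤ t ∧ z = a - t * e} ∧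
      ∀ᵐ x, u x = m + ε * ctip e (x - a) := by
  obtain ⟨u₀, hu₀, hmin, hg⟩ := dg_plane h
  set K := closure (discSet univ u) with hK
  rcases K.eq_empty_or_nonempty with hKe | ⟨x₀, hx₀⟩
  · left
    refine ⟨hKe, ?_⟩
    rw [hKe] at hmin
    obtain ⟨c, hc⟩ := dg_empty hmin
    exact ⟨c, by filter_upwards [hu₀] with x hx; rw [← hx, hc]⟩
  right
  rcases dg_lim b6_class hmin with ⟨x, hx, -, hD⟩ | hthird
  · obtain ⟨e, m, ε, he, hε, hKf, huf⟩ := dg_tip_at hmin hx hD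
    refine ⟨x, e, m, ε, he, hε, hKf, ?_⟩
    have hK0 : volume K = 0 := by
      have := emb_volume h
      rwa [univ_inter] at this
    have h8 : ∀ᵐ y : ℂ, y ∉ K := measure_eq_zero_iff_ae_notMem.1 hK0
    filter_upwards [hu₀, h8] with y hy1 hy2
    rw [← hy1, huf y hy2]
  · exfalso
    have hloc : ∀ p ∈ K, IsRegPt K p ∨ IsTriple K p := by
      intro p hp
      obtain ⟨⟨Q', -, h0', -, hline, R, hR0, hR, hc⟩, -, -⟩ := hthird p hp
      exact dg_regular h b6_class hmin (by simpa using hg) (mem_univ p) hp h0' hline hR0 hR hc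
    have hN : NoRegion univ K := by
      have := ms_noregion_of b6_class h
      rwa [univ_inter] at this
    obtain ⟨r, hr, hlt⟩ := dg_short b6_class hmin.toTGlob hx₀ (hthird x₀ hx₀).2.2
    refine absurd hlt (not_lt.2 ?_)
    exact dg_len_two isClosed_closure fun s hs _ => ga_two_exits isClosed_closure hloc hN hx₀ hs

/-- **De Giorgi's classification** of `𝓜(ℝ²)`: a local minimizer of the Mumford-Shah energy in the
plane is (almost everywhere) a constant or a crack tip. -/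
theorem dg_class {u : ℂ → ℝ} (hu : IsLocalMinimizer univ u) :
    (closure (discSet univ u) = ∅ ∧ ∃ c : ℝ, ∀ᵐ x, u x = c) ∨
    ∃ (a e : ℂ) (m ε : ℝ), ‖e‖ = 1 ∧ (ε = 1 ∨ ε = -1) ∧
      closure (discSet univ u) = {z | ∃ t : ℝ, 0 ≤ t ∧ z = a - t * e} ∧
      ∀ᵐ x, u x = m + ε * ctip e (x - a) := by
  obtain ⟨u', g, j, h, hae, hS, -⟩ := exists_MSMin isOpen_univ hu
  rw [Measure.restrict_univ] at hae
  rw [← hS]
  rcases dg_class_ms h with ⟨h1, c, hc⟩ | ⟨a, e, m, ε, he, hε, hK, hc⟩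
  · refine Or.inl ⟨h1, c, ?_⟩
    filter_upwards [hae, hc] with x h2 h3
    rw [← h2, h3]
  · refine Or.inr ⟨a, e, m, ε, he, hε, hK, ?_⟩
    filter_upwards [hae, hc] with x h2 h3
    rw [← h2, h3]

end Pool.Agent.MP099f24
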