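import Pool.Agent.Lib.MP_099f24_an.TM.Bas

/-!
# From all balls to the plane: embedding of a minimizer of the plane (module DG1, core)
-/

set_option autoImplicit false

namespace Pool.Agent.MP099f24

open MeasureTheory Filter Topology Set Metric
open scoped ENNReal ContDiff

/-- truncation by a `C¹` function with derivative at most `1` does not increase the energy -/
theorem dg_cen_comp_le {Ω : Set ℂ} {w : ℂ → ℝ} {l : ℂ → Set ℂ} {K : Set ℂ} (h : TConf Ω w l K)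
    {κ : ℝ → ℝ} (hκ : ContDiff ℝ 1 κ) (hκ1 : ∀ s, |deriv κ s| ≤ 1) {A : Set ℂ}
    (hA : MeasurableSet A) (hAΩ : A ⊆ Ω) : cen (fun x => κ (w x)) K A ≤ cen w K A := by
  unfold cen
  gcongr ?_ + _
  refine setLIntegral_mono' (hA.diff h.measurableSet) fun x hx => ?_
  have hd : DifferentiableAt ℝ w x := h.diffAt (hAΩ hx.1) hx.2
  rw [cgr_comp hd (hκ.differentiable one_ne_zero (w x)), enorm_mul]
  have h1 : ‖((deriv κ (w x) : ℝ) : ℂ)‖ₑ ≤ 1 := by
    rw [← ofReal_norm, Complex.norm_real, Real.norm_eq_abs]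
    exact ENNReal.ofReal_le_one.2 (hκ1 _)
  calc (‖((deriv κ (w x) : ℝ) : ℂ)‖ₑ * ‖cgr w x‖ₑ) ^ 2 ≤ (1 * ‖cgr w x‖ₑ) ^ 2 := by gcongr
    _ = ‖cgr w x‖ₑ ^ 2 := by rw [one_mul]

theorem dg_conf_comp {Ω : Set ℂ} {w : ℂ → ℝ} {l : ℂ → Set ℂ} {K : Set ℂ} (h : TConf Ω w l K)
    {κ : ℝ → ℝ} (hκ : ContDiff ℝ 1 κ) (hκ1 : ∀ s, |deriv κ s| ≤ 1) :
    TConf Ω (fun x => κ (w x)) l K where
  isOpen := h.isOpen
  sub := h.sub
  isOpen_off := h.isOpen_off
  smooth := hκ.comp_contDiffOn h.smooth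
  lab := h.lab
  fin := fun C hC hCΩ => (dg_cen_comp_le h hκ hκ1 hC.measurableSet hCΩ).trans_lt (h.fin C hC hCΩ)

theorem dg_conf_restrict {Ω Ω' : Set ℂ} {w : ℂ → ℝ} {l : ℂ → Set ℂ} {K : Set ℂ}
    (h : TConf Ω w l K) (hΩ' : IsOpen Ω') (hsub : Ω' ⊆ Ω) : TConf Ω' w l (K ∩ Ω') := by
  have e : Ω' \ (K ∩ Ω') = Ω' ∩ (Ω \ K) := by
    ext x
    constructor
    · rintro ⟨h1, h2⟩
      exact ⟨h1, hsub h1, fun h3 => h2 ⟨h3, h1⟩⟩
    · rintro ⟨h1, h2⟩
      exact ⟨h1, fun h3 => h2.2 h3.1⟩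
  refine ⟨hΩ', inter_subset_right, ?_, ?_, ?_, ?_⟩
  · rw [e]
    exact hΩ'.inter h.isOpen_off
  · rw [e]
    exact h.smooth.mono inter_subset_right
  · rw [e]
    exact fun x hx => h.lab x hx.2
  · intro C hC hCΩ
    have h1 : cen w (K ∩ Ω') C = cen w K C := by
      refine cen_congr hC.measurableSet (h.measurableSet.inter hΩ'.measurableSet) ?_ ?_
      · exact fun x hx => ⟨fun h3 => h3.1, fun h3 => ⟨h3, hCΩ hx⟩⟩
      · exact fun _ _ _ => rfl
    rw [h1]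
    exact h.fin C hC (hCΩ.trans hsub)

/-- **DG1, core.** If on every disc `B_R` a truncation of `ũ` is a topological minimizer with the
same gradient, then `ũ` is a topological minimizer of the plane. -/
theorem dg_emb_of {u : ℂ → ℝ} {K : Set ℂ} (hK : IsClosed K) (hu : ContDiffOn ℝ 1 u Kᶜ)
    (h : ∀ R : ℝ, 0 < R → ∃ κ : ℝ → ℝ, ContDiff ℝ 1 κ ∧ (∀ s, |deriv κ s| ≤ 1) ∧
      TMin (ball 0 R) (fun x => κ (u x)) (fun _ => ∅) (K ∩ ball 0 R) ∧
      ∀ x ∈ ball 0 R, x ∉ K → cgr (fun x => κ (u x)) x = cgr u x) :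
    TMin univ u (fun _ => ∅) K := by
  have hKo : IsOpen (univ \ K) := by
    rw [← compl_eq_univ_sdiff]
    exact hK.isOpen_compl
  -- energies of `u` and of the truncated function
  have hcen : ∀ (R : ℝ) (κ : ℝ → ℝ), (∀ x ∈ ball 0 R, x ∉ K → cgr (fun x => κ (u x)) x = cgr u x) →
      ∀ A, MeasurableSet A → A ⊆ ball 0 R → cen (fun x => κ (u x)) (K ∩ ball 0 R) A = cen u K A := by
    intro R κ hg A hA hAR
    refine cen_congr hA (hK.measurableSet.inter measurableSet_ball) ?_ ?_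
    · exact fun x hx => ⟨fun h3 => h3.1, fun h3 => ⟨h3, hAR hx⟩⟩
    · exact fun x hx hxK => hg x (hAR hx) fun h3 => hxK ⟨h3, hAR hx⟩
  have hbig : ∀ C : Set ℂ, IsCompact C → ∃ R : ℝ, 0 < R ∧ C ⊆ ball 0 R := by
    intro C hC
    obtain ⟨r, hr⟩ := hC.isBounded.subset_ball 0
    exact ⟨max r 1, lt_max_of_lt_right one_pos, hr.trans (ball_subset_ball (le_max_left _ _))⟩
  have hconf : TConf univ u (fun _ => ∅) K := by
    refine ⟨isOpen_univ, subset_univ _, hKo, by rwa [← compl_eq_univ_sdiff],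
      fun x _ => Eventually.of_forall fun _ => rfl, fun C hC _ => ?_⟩
    obtain ⟨R, hR, hCR⟩ := hbig C hC
    obtain ⟨κ, -, -, hmin, hg⟩ := h R hR
    rw [← hcen R κ hg C hC.measurableSet hCR]
    exact hmin.fin C hC hCR
  refine ⟨hconf, ?_, ?_, ?_⟩
  · intro x hx
    obtain ⟨R, hR, hxR⟩ := hbig {x} isCompact_singleton
    obtain ⟨κ, -, -, hmin, hg⟩ := h R hR
    have hxR' : x ∈ ball 0 R := hxR rfl
    have h1 : x ∈ ball 0 R \ (K ∩ ball 0 R) := ⟨hxR', fun h3 => hx.2 h3.1⟩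
    have h2 := (hmin.hol x h1).differentiableAt (hmin.isOpen_off.mem_nhds h1)
    refine DifferentiableAt.differentiableWithinAt ?_
    refine h2.congr_of_eventuallyEq ?_
    filter_upwards [isOpen_ball.mem_nhds hxR', hK.isOpen_compl.mem_nhds hx.2] with y hy hyK
    rw [hg y hy hyK]
  · intro x hx r hr _
    obtain ⟨R, hR, hxR⟩ := hbig (closedBall x r) (isCompact_closedBall x r)
    obtain ⟨κ, -, -, hmin, hg⟩ := h R hR
    have h1 := hmin.dens x ⟨hx, hxR (mem_closedBall_self hr.le)⟩ r hr hxR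
    rwa [hcen R κ hg _ measurableSet_ball (ball_subset_closedBall.trans hxR)] at h1
  · intro w l' K' F hw hF _ hKF hwF
    obtain ⟨R, hR, hFR⟩ := hbig F hF
    obtain ⟨κ, hκ, hκ1, hmin, hg⟩ := h R hR
    have hw1 := dg_conf_comp (dg_conf_restrict hw isOpen_ball (subset_univ (ball 0 R))) hκ hκ1
    have h1 := hmin.min _ _ _ F hw1 hF hFR (fun x hx => ?_) (fun x hx hxK => ?_)
    · rw [hcen R κ hg F hF.measurableSet hFR] at h1
      refine h1.trans ?_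
      refine (dg_cen_comp_le (dg_conf_restrict hw isOpen_ball (subset_univ (ball 0 R))) hκ hκ1
        hF.measurableSet hFR).trans (le_of_eq ?_)
      refine cen_congr hF.measurableSet (hw.measurableSet.inter measurableSet_ball) ?_ ?_
      · exact fun x hx => ⟨fun h3 => h3.1, fun h3 => ⟨h3, hFR hx⟩⟩
      · exact fun _ _ _ => rfl
    · have h2 := hKF x ⟨mem_univ _, hx.2⟩
      exact ⟨fun h3 => ⟨h2.1 h3.1, h3.2⟩, fun h3 => ⟨h2.2 h3.1, h3.2⟩⟩
    · have h2 := hwF x ⟨mem_univ _, hx.2⟩ fun h3 => hxK ⟨h3, hx.1⟩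
      exact ⟨by rw [h2.1], h2.2⟩

end Pool.Agent.MP099f24
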