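import Pool.Agent.Lib.MP_099f24_an.B6.Defs
import Pool.Agent.Lib.MP_099f24_an.GA.Defs
import Pool.Agent.Lib.MP_099f24_an.LF.Om3

/-!
# A point with a blow-up which is a line or a propeller is not a tip (module DG4)
-/

set_option autoImplicit false

namespace Pool.Agent.MP099f24

open MeasureTheory Filter Topology Set Metric
open scoped ComplexConjugate

/-- the abstract form -/
theorem dg_no_tip_aux {P Q : B6El} {p : ℂ} {r : ℕ → ℝ} (hr : ∀ k, 0 < r k)
    (hr0 : Tendsto r atTop (𝓝 0)) (hc : B6Conv (fun k => P.resc p (r k)) Q) {e a b : ℂ}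
    {s₁ s₂ η : ℝ} (hs₁ : 0 < s₁) (hη : 0 < η) (ha : a ∈ Q.K) (hb : b ∈ Q.K)
    (ha1 : s₁ < ‖a‖) (ha2 : ‖a‖ < s₂) (hb1 : s₁ < ‖b‖) (hb2 : ‖b‖ < s₂)
    (hea : 0 < (a * conj e).re) (heb : (b * conj e).re < 0)
    (hfar : ∀ z : ℂ, s₁ ≤ ‖z‖ → ‖z‖ ≤ s₂ → (z * conj e).re = 0 → ∀ k ∈ Q.K, η ≤ ‖z - k‖) :
    ¬ IsTip P.K p := by
  rintro ⟨δ, σ, hσ⟩
  have hs₂ : 0 < s₂ := hs₁.trans (ha1.trans ha2)
  -- neighbourhoods of `a` and `b`
  have hcre : Continuous fun z : ℂ => (z * conj e).re :=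
    Complex.continuous_re.comp (continuous_id.mul continuous_const)
  have hcn : Continuous fun z : ℂ => ‖z‖ := continuous_norm
  have hnear : ∀ c : ℂ, ∀ W : Set ℂ, W ∈ 𝓝 c → c ∈ Q.K → ‖c‖ < s₂ →
      ∀ᶠ k in atTop, ∃ y ∈ (P.resc p (r k)).K, y ∈ W := by
    intro c W hW hcQ hcs
    obtain ⟨ε, hε, hεW⟩ := Metric.mem_nhds_iff.1 hW
    filter_upwards [hc.u2 s₂ ε hε] with k hk
    obtain ⟨y, hy, hyc⟩ := hk c hcQ hcs.le
    exact ⟨y, hy, hεW (by rwa [mem_ball, dist_eq_norm])⟩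
  have hWa : {z : ℂ | 0 < (z * conj e).re ∧ s₁ < ‖z‖ ∧ ‖z‖ < s₂} ∈ 𝓝 a := by
    refine (IsOpen.mem_nhds ?_ ⟨hea, ha1, ha2⟩)
    exact (isOpen_lt continuous_const hcre).inter
      ((isOpen_lt continuous_const hcn).inter (isOpen_lt hcn continuous_const))
  have hWb : {z : ℂ | (z * conj e).re < 0 ∧ s₁ < ‖z‖ ∧ ‖z‖ < s₂} ∈ 𝓝 b := by
    refine (IsOpen.mem_nhds ?_ ⟨heb, hb1, hb2⟩)
    exact (isOpen_lt hcre continuous_const).inter
      ((isOpen_lt continuous_const hcn).inter (isOpen_lt hcn continuous_const))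
  have hsmall : ∀ᶠ k in atTop, r k * s₂ < δ := by
    have h1 : Tendsto (fun k => r k * s₂) atTop (𝓝 (0 * s₂)) := hr0.mul_const s₂
    rw [zero_mul] at h1
    exact h1.eventually_lt_const hσ.pos
  obtain ⟨k, hka, hkb, hku, hks⟩ := ((hnear a _ hWa ha ha2).and ((hnear b _ hWb hb hb2).and
    ((hc.u1 s₂ η hη).and hsmall))).exists
  obtain ⟨a', ha'K, ha'e, ha'1, ha'2⟩ := hka
  obtain ⟨b', hb'K, hb'e, hb'1, hb'2⟩ := hkb
  have hrk := hr k
  -- the points of `K` in the annulus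
  have hpt : ∀ z : ℂ, 0 < ‖z‖ → ‖z‖ ≤ s₂ → (p + r k * z ∈ P.K ↔ p + r k * z = σ 0 (r k * ‖z‖)) := by
    intro z hz hzs
    have h1 : ‖p + r k * z - p‖ = r k * ‖z‖ := by
      rw [add_sub_cancel_left, norm_mul, Complex.norm_real, Real.norm_of_nonneg hrk.le]
    have h2 := hσ.mem_iff (p + r k * z) (by rw [h1]; positivity) (by
      rw [h1]
      refine lt_of_le_of_lt ?_ hks
      gcongr)
    rw [h1] at h2
    rw [h2]
    constructor
    · rintro ⟨i, hi⟩
      rwa [Subsingleton.elim i 0] at hi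
    · exact fun h => ⟨0, h⟩
  -- the function on the interval of radii
  set f : ℝ → ℝ := fun s => ((σ 0 (r k * s) - p) * conj e).re with hf
  have hfc : ContinuousOn f (Ioc 0 s₂) := by
    have h1 : ContinuousOn (fun s => σ 0 (r k * s)) (Ioc 0 s₂) := by
      refine (hσ.cont 0).comp (by fun_prop) ?_
      intro s hs
      refine ⟨by have := hs.1; positivity, lt_of_le_of_lt ?_ hks⟩
      have := hs.2
      gcongr
    exact Complex.continuous_re.comp_continuousOn ((h1.sub continuousOn_const).mul continuousOn_const)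
  have hfval : ∀ z : ℂ, 0 < ‖z‖ → ‖z‖ ≤ s₂ → z ∈ (P.resc p (r k)).K → f ‖z‖ = r k * (z * conj e).re := by
    intro z hz hzs hzK
    have h1 := (hpt z hz hzs).1 hzK
    simp only [hf]
    rw [← h1, add_sub_cancel_left, mul_assoc, Complex.re_ofReal_mul]
  have hfa : 0 < f ‖a'‖ := by
    rw [hfval a' (hs₁.trans ha'1) ha'2.le ha'K]
    positivity
  have hfb : f ‖b'‖ < 0 := by
    rw [hfval b' (hs₁.trans hb'1) hb'2.le hb'K]
    exact mul_neg_of_pos_of_neg hrk hb'e
  have hsub : uIcc ‖b'‖ ‖a'‖ ⊆ Ioc 0 s₂ := by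
    intro s hs
    rcases le_total ‖b'‖ ‖a'‖ with h | h
    · rw [uIcc_of_le h] at hs
      exact ⟨(hs₁.trans hb'1).trans_le hs.1, hs.2.trans ha'2.le⟩
    · rw [uIcc_of_ge h] at hs
      exact ⟨(hs₁.trans ha'1).trans_le hs.1, hs.2.trans hb'2.le⟩
  have hsub2 : uIcc ‖b'‖ ‖a'‖ ⊆ Icc s₁ s₂ := by
    intro s hs
    rcases le_total ‖b'‖ ‖a'‖ with h | h
    · rw [uIcc_of_le h] at hs
      exact ⟨hb'1.le.trans hs.1, hs.2.trans ha'2.le⟩
    · rw [uIcc_of_ge h] at hs
      exact ⟨ha'1.le.trans hs.1, hs.2.trans hb'2.le⟩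
  obtain ⟨s, hs, hfs⟩ := intermediate_value_uIcc (hfc.mono hsub) (mem_uIcc.2 (Or.inl ⟨hfb.le, hfa.le⟩))
  have hs12 := hsub2 hs
  have hs0 : 0 < s := hs₁.trans_le hs12.1
  -- the point of `K` on the circle of radius `s`
  set z : ℂ := (r k : ℂ)⁻¹ * (σ 0 (r k * s) - p) with hz
  have hrz : (r k : ℂ) * z = σ 0 (r k * s) - p := by
    rw [hz, ← mul_assoc, mul_inv_cancel₀ (by exact_mod_cast hrk.ne'), one_mul]
  have hzn : ‖z‖ = s := by
    have h1 : ‖(r k : ℂ) * z‖ = r k * s := by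
      rw [hrz]
      refine hσ.norm_sub 0 (r k * s) ⟨by positivity, lt_of_le_of_lt ?_ hks⟩
      have := hs12.2
      gcongr
    rw [norm_mul, Complex.norm_real, Real.norm_of_nonneg hrk.le] at h1
    exact mul_left_cancel₀ hrk.ne' h1
  have hzK : z ∈ (P.resc p (r k)).K := by
    change p + r k * z ∈ P.K
    rw [hpt z (by rw [hzn]; exact hs0) (by rw [hzn]; exact hs12.2), hzn, hrz]
    ring
  obtain ⟨q, hq, hzq⟩ := hku z hzK (by rw [hzn]; exact hs12.2)
  have h5 : (z * conj e).re = 0 := by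
    have h6 : f s = r k * (z * conj e).re := by
      rw [← hzn]
      exact hfval z (by rw [hzn]; exact hs0) (by rw [hzn]; exact hs12.2) hzK
    rw [hfs] at h6
    exact (mul_eq_zero.1 h6.symm).resolve_left hrk.ne'
  exact absurd hzq (not_lt.2 (hfar z (by rw [hzn]; exact hs12.1) (by rw [hzn]; exact hs12.2) h5 q hq))

theorem dg_no_tip {P Q : B6El} {p : ℂ} {r : ℕ → ℝ} (hr : ∀ k, 0 < r k)
    (hr0 : Tendsto r atTop (𝓝 0)) (hc : B6Conv (fun k => P.resc p (r k)) Q)
    (hQ : B6Line Q.K ∨ ∃ c, B6Tri Q.K c) : ¬ IsTip P.K p := by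
  rcases hQ with ⟨e, he, hK⟩ | ⟨c, e, he, hK⟩
  · have hee : e * conj e = 1 := by
      rw [Complex.mul_conj, Complex.normSq_eq_norm_sq, he]
      norm_num
    refine dg_no_tip_aux hr hr0 hc (e := e) (a := e) (b := -e) (s₁ := 1 / 2) (s₂ := 2) (η := 1 / 2)
      (by norm_num) (by norm_num) ?_ ?_ ?_ ?_ ?_ ?_ ?_ ?_ ?_
    · rw [hK]
      exact ⟨1, by simp⟩
    · rw [hK]
      exact ⟨-1, by simp⟩
    · rw [he]; norm_num
    · rw [he]; norm_num
    · rw [norm_neg, he]; norm_num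
    · rw [norm_neg, he]; norm_num
    · rw [hee]; norm_num
    · rw [neg_mul, hee]; norm_num
    · intro z hz1 _ hz0 k hk
      rw [hK] at hk
      obtain ⟨t, rfl⟩ := hk
      have h1 : ‖z - t * e‖ = ‖z * conj e - t‖ := by
        have : z * conj e - t = (z - t * e) * conj e := by
          rw [sub_mul, mul_assoc, hee, mul_one]
        rw [this, norm_mul, Complex.norm_conj, he, mul_one]
      have h2 : ‖z * conj e‖ = ‖z‖ := by rw [norm_mul, Complex.norm_conj, he, mul_one]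
      rw [h1]
      refine hz1.trans ?_
      rw [← h2]
      refine le_of_sq_le_sq ?_ (norm_nonneg _)
      rw [← Complex.normSq_eq_norm_sq, ← Complex.normSq_eq_norm_sq, Complex.normSq_apply,
        Complex.normSq_apply, Complex.sub_re, Complex.sub_im, hz0]
      simp only [Complex.ofReal_re, Complex.ofReal_im]
      nlinarith [sq_nonneg t]
  · have hee : e * conj e = 1 := by
      rw [Complex.mul_conj, Complex.normSq_eq_norm_sq, he]
      norm_num
    have hc0 := norm_nonneg c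
    set M : ℝ := 10 * (‖c‖ + 1) with hM
    have hM0 : 0 < M := by positivity
    have hn0 : ‖(M : ℂ) * e‖ = M := by
      rw [norm_mul, he, mul_one, Complex.norm_real, Real.norm_of_nonneg hM0.le]
    have hn1 : ‖(M : ℂ) * (om3 * e)‖ = M := by
      rw [norm_mul, norm_mul, om3_norm, he, mul_one, mul_one, Complex.norm_real,
        Real.norm_of_nonneg hM0.le]
    have hce : ‖c * conj e‖ = ‖c‖ := by rw [norm_mul, Complex.norm_conj, he, mul_one]
    have hcr := (Complex.abs_re_le_norm (c * conj e)).trans_eq hce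
    rw [abs_le] at hcr
    have e0 : ((c + M * e) * conj e).re = (c * conj e).re + M := by
      rw [add_mul, mul_assoc, hee, mul_one, Complex.add_re, Complex.ofReal_re]
    have e1 : ((c + M * (om3 * e)) * conj e).re = (c * conj e).re - M / 2 := by
      rw [add_mul, mul_assoc, mul_assoc, hee, mul_one, Complex.add_re, Complex.re_ofReal_mul, om3_re]
      ring
    refine dg_no_tip_aux hr hr0 hc (e := e) (a := c + M * e) (b := c + M * (om3 * e))
      (s₁ := M / 2) (s₂ := 2 * M) (η := 1) (by positivity) one_pos ?_ ?_ ?_ ?_ ?_ ?_ ?_ ?_ ?_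
    · rw [hK]
      exact ⟨0, M, hM0.le, by simp⟩
    · rw [hK]
      exact ⟨1, M, hM0.le, by simp⟩
    · have h2 := norm_sub_norm_le ((M : ℂ) * e) (-c)
      rw [norm_neg, sub_neg_eq_add, add_comm ((M : ℂ) * e) c] at h2
      linarith
    · have h2 := norm_add_le c (M * e)
      linarith
    · have h2 := norm_sub_norm_le ((M : ℂ) * (om3 * e)) (-c)
      rw [norm_neg, sub_neg_eq_add, add_comm _ c] at h2
      linarith
    · have h2 := norm_add_le c (M * (om3 * e))
      linarith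
    · rw [e0]; linarith
    · rw [e1]; linarith
    · intro z hz1 _ hz0 k hk
      rw [hK] at hk
      obtain ⟨i, t, ht, rfl⟩ := hk
      have hzn : ‖z * conj e‖ = ‖z‖ := by rw [norm_mul, Complex.norm_conj, he, mul_one]
      have h1 : ‖z‖ / 2 ≤ ‖z - t * (om3 ^ (i : ℕ) * e)‖ := by
        have h2 : ‖z - t * (om3 ^ (i : ℕ) * e)‖ = ‖z * conj e - t * om3 ^ (i : ℕ)‖ := by
          have : z * conj e - t * om3 ^ (i : ℕ) = (z - t * (om3 ^ (i : ℕ) * e)) * conj e := by
            rw [sub_mul, mul_assoc, mul_assoc, hee, mul_one]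
          rw [this, norm_mul, Complex.norm_conj, he, mul_one]
        rw [h2, ← hzn]
        refine le_of_sq_le_sq ?_ (norm_nonneg _)
        rw [div_pow, ← Complex.normSq_eq_norm_sq, ← Complex.normSq_eq_norm_sq,
          Complex.normSq_apply, Complex.normSq_apply, Complex.sub_re, Complex.sub_im, hz0,
          Complex.re_ofReal_mul, Complex.im_ofReal_mul]
        have h3 : Real.sqrt 3 ^ 2 = 3 := Real.sq_sqrt (by norm_num)
        set y := (z * conj e).im
        fin_cases i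
        · simp
          nlinarith [sq_nonneg t, sq_nonneg y]
        · simp only [pow_one, om3_re, om3_im]
          nlinarith [sq_nonneg (t - Real.sqrt 3 / 2 * y)]
        · simp only [om3_sq, Complex.conj_re,
            Complex.conj_im, om3_re, om3_im]
          nlinarith [sq_nonneg (t + Real.sqrt 3 / 2 * y)]
      have h2 : z - (c + t * (om3 ^ (i : ℕ) * e)) = (z - t * (om3 ^ (i : ℕ) * e)) - c := by ring
      have h3 := norm_sub_norm_le (z - t * (om3 ^ (i : ℕ) * e)) c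
      rw [h2]
      linarith

end Pool.Agent.MP099f24
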