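import Pool.Agent.Lib.MP_099f24_an.DG.Emb
import Pool.Agent.Lib.MP_099f24_an.ST.Emb

/-!
# A local minimizer in the plane is a topological minimizer of the plane (module DG1)
-/

set_option autoImplicit false

namespace Pool.Agent.MP099f24

open MeasureTheory Filter Topology Set Metric
open scoped ENNReal ContDiff

theorem TMin.congr_off {Ω : Set ℂ} {u w : ℂ → ℝ} {l : ℂ → Set ℂ} {K : Set ℂ} (h : TMin Ω u l K)
    (hw : ∀ x ∈ Ω \ K, w x = u x) : TMin Ω w l K := by
  have hev : ∀ x ∈ Ω \ K, w =ᶠ[𝓝 x] u := fun x hx =>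
    Filter.eventuallyEq_of_mem (h.isOpen_off.mem_nhds hx) hw
  have hc : ∀ x ∈ Ω \ K, cgr w x = cgr u x := fun x hx => cgr_congr (hev x hx)
  have hcen : ∀ A, MeasurableSet A → A ⊆ Ω → cen w K A = cen u K A := by
    intro A hA hAΩ
    exact cen_congr hA h.toTConf.measurableSet (fun x _ => Iff.rfl)
      (fun x hx hxK => hc x ⟨hAΩ hx, hxK⟩)
  refine ⟨⟨h.isOpen, h.sub, h.isOpen_off, h.smooth.congr hw, h.lab, fun C hC hCΩ => ?_⟩, ?_, ?_, ?_⟩
  · rw [hcen C hC.measurableSet hCΩ]
    exact h.fin C hC hCΩ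
  · refine h.hol.congr fun x hx => ?_
    rw [hc x hx]
  · intro x hx r hr hb
    rw [hcen _ measurableSet_ball (ball_subset_closedBall.trans hb)]
    exact h.dens x hx r hr hb
  · intro w' l' K' F hw' hF hFΩ hK' hwu
    rw [hcen F hF.measurableSet hFΩ]
    refine h.min w' l' K' F hw' hF hFΩ hK' fun x hx hxK => ?_
    rw [← hw x ⟨hx.1, hxK⟩]
    exact hwu x hx hxK

/-- **DG1.** A local minimizer in the plane, normalised off the closure of its discontinuity set, is
a topological minimizer of the plane (for constant labels). -/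
theorem dg_plane {u : ℂ → ℝ} {g j : ℂ → ℂ} (h : MSMin univ u g j) :
    ∃ u₀ : ℂ → ℝ, (∀ᵐ x, u₀ x = u x) ∧
      TMin univ u₀ (fun _ => ∅) (closure (discSet univ u)) ∧ ∀ᵐ x, cgr u₀ x = g x := by
  obtain ⟨u₀, g₀, h0, hg₀, hu₀⟩ := emb_init' h
  rw [univ_inter] at h0
  set K := closure (discSet univ u) with hK
  have hKc : IsClosed K := isClosed_closure
  have hsm : ContDiffOn ℝ 1 u₀ Kᶜ := by
    have := h0.smooth
    rwa [← compl_eq_univ_sdiff] at this
  refine ⟨u₀, by simpa using hu₀, dg_emb_of hKc hsm ?_, ?_⟩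
  · intro R hR
    obtain ⟨s, hs, -, κ, T, u', j', hκ, hκ1, h', hT, hform⟩ :=
      h0.clip' (a := 0) (R := 2 * R) (by positivity) (subset_univ _)
    have hsub : ball (0 : ℂ) R ⊆ ball 0 s := ball_subset_ball (by linarith)
    have hmin := h'.tmin (V := ball 0 R) isOpen_ball (subset_univ _) (T := T)
      (fun x hx => hT x (hsub hx))
    rw [inter_comm] at hmin
    refine ⟨κ, hκ.of_le (by simp), fun t => ?_, hmin.congr_off ?_, ?_⟩
    · rw [abs_of_nonneg (hκ1 t).1]
      exact (hκ1 t).2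
    · intro x hx
      exact (hform x (hsub hx.1) fun h3 => hx.2 ⟨h3, hx.1⟩).symm
    · intro x hx hxK
      have h1 : cgr (fun y => κ (u₀ y)) x = cgr u' x := by
        refine cgr_congr ?_
        filter_upwards [isOpen_ball.mem_nhds (hsub hx), hKc.isOpen_compl.mem_nhds hxK] with y hy hyK
        exact (hform y hy hyK).symm
      have hx' : x ∈ (univ : Set ℂ) \ K := ⟨mem_univ _, hxK⟩
      have h2 : g₀ x = cgr u₀ x := by rw [h0.grad, indicator_of_mem hx']
      have h3 : g₀ x = cgr u' x := by rw [h'.grad, indicator_of_mem hx']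
      rw [h1, ← h3, h2]
  · have hK0 : volume K = 0 := by
      have := emb_volume h
      rwa [univ_inter] at this
    have h8 : ∀ᵐ x : ℂ, x ∉ K := measure_eq_zero_iff_ae_notMem.1 hK0
    have hg₀' : ∀ᵐ x : ℂ, g₀ x = g x := by simpa using hg₀
    filter_upwards [hg₀', h8] with y hy1 hy2
    rw [h0.grad, indicator_of_mem (show y ∈ (univ : Set ℂ) \ K from ⟨mem_univ _, hy2⟩)] at hy1
    exact hy1

end Pool.Agent.MP099f24
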